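import Pool.Agent.D0H95.NB.Main

/-!
The Newtonian field with the masses as parameters, cut off, and its flow.
-/

set_option autoImplicit false

namespace Pool.Agent.D0H95.PL

open Pool.Agent.W821.TB Pool.Agent.D0H95.NB Finset Filter Topology
open Pool.Agent.GR.Flow (IsFlowOf exists_solution contDiff_flow hasDerivAt_fderiv_flow)

variable {n : ℕ}

/-- Phase points and masses. -/
abbrev Wm (n : ℕ) := Ph n × (Fin n → ℝ)

theorem contDiffAt_accm {w : Wm n} (hq : ∀ a b, a ≠ b → w.1.1 a ≠ w.1.1 b) (a : Fin n) :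
    ContDiffAt ℝ 1 (fun p : Wm n => acc p.2 p.1.1 a) w := by
  unfold acc
  refine ContDiffAt.sum fun b hb => ?_
  have hne : w.1.1 b - w.1.1 a ≠ 0 := sub_ne_zero.2 (hq b a (Finset.ne_of_mem_erase hb))
  have hd : ContDiffAt ℝ 1 (fun p : Wm n => p.1.1 b - p.1.1 a) w := by fun_prop
  have hn : ContDiffAt ℝ 1 (fun p : Wm n => ‖p.1.1 b - p.1.1 a‖) w := hd.norm ℝ hne
  have hm : ContDiffAt ℝ 1 (fun p : Wm n => p.2 b) w := by fun_prop
  have hn3 : ContDiffAt ℝ 1 (fun p : Wm n => p.2 b / ‖p.1.1 b - p.1.1 a‖ ^ 3) w :=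
    hm.div (hn.pow 3) (pow_ne_zero 3 (norm_ne_zero_iff.2 hne))
  have ho : ContDiffAt ℝ 1 (fun p : Wm n => ((p.2 b / ‖p.1.1 b - p.1.1 a‖ ^ 3 : ℝ) : ℂ)) w :=
    (Complex.ofRealCLM.contDiff.contDiffAt).comp w hn3
  exact ho.mul hd

/-- The field with the masses as parameters. -/
noncomputable def V (w : Wm n) : Wm n := (vf w.2 w.1, 0)

theorem contDiffAt_V {w : Wm n} (hw : ∀ a b, a ≠ b → w.1.1 a ≠ w.1.1 b) :
    ContDiffAt ℝ 1 (V : Wm n → Wm n) w := by
  unfold V vf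
  refine ContDiffAt.prodMk (ContDiffAt.prodMk ?_ ?_) contDiffAt_const
  · fun_prop
  · exact contDiffAt_pi.2 fun a => contDiffAt_accm hw a

/-- Cut-off in the masses and the positions. -/
noncomputable def ch (R δ ρ : ℝ) (w : Wm n) : ℝ :=
  chi R δ w.1 * Real.smoothTransition (2 - (∑ a, w.2 a ^ 2) / ρ)

/-- The region. -/
def Reg (R δ ρ : ℝ) : Set (Wm n) := {w | w.1 ∈ (Rg R δ : Set (Ph n)) ∧ ∑ a, w.2 a ^ 2 < ρ}

theorem isOpen_Reg (R δ ρ : ℝ) : IsOpen (Reg R δ ρ : Set (Wm n)) := by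
  have h1 : IsOpen {w : Wm n | w.1 ∈ (Rg R δ : Set (Ph n))} :=
    (isOpen_Rg R δ).preimage continuous_fst
  have h2 : IsOpen {w : Wm n | ∑ a, w.2 a ^ 2 < ρ} := isOpen_lt (by fun_prop) continuous_const
  exact h1.inter h2

/-- The modified field. -/
noncomputable def YY (R δ ρ : ℝ) (w : Wm n) : Wm n := ch R δ ρ w • V w

theorem ch_one {R δ ρ : ℝ} (hR : 0 < R) (hδ : 0 < δ) (hρ : 0 < ρ) {w : Wm n}
    (hw : w ∈ (Reg R δ ρ : Set (Wm n))) : ch R δ ρ w = 1 := by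
  unfold ch
  rw [chi_one hR hδ hw.1, one_mul]
  apply Real.smoothTransition.one_of_one_le
  have h1 : (∑ a, w.2 a ^ 2) / ρ ≤ 1 := by
    rw [div_le_iff₀ hρ]; linarith [hw.2]
  linarith

theorem YY_one {R δ ρ : ℝ} (hR : 0 < R) (hδ : 0 < δ) (hρ : 0 < ρ) {w : Wm n}
    (hw : w ∈ (Reg R δ ρ : Set (Wm n))) : YY R δ ρ w = V w := by
  unfold YY
  rw [ch_one hR hδ hρ hw, one_smul]

theorem contDiff_YY {R δ ρ : ℝ} (hδ : 0 < δ) : ContDiff ℝ 1 (YY R δ ρ : Wm n → Wm n) := by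
  rw [contDiff_iff_contDiffAt]
  intro w
  by_cases hw : ∀ a b, a ≠ b → w.1.1 a ≠ w.1.1 b
  · have h0 : ContDiffAt ℝ 1 (ch R δ ρ : Wm n → ℝ) w := by
      unfold ch
      have hst : ContDiff ℝ 1 Real.smoothTransition := Real.smoothTransition.contDiff
      have h1 : ContDiff ℝ 1 (fun w : Wm n => chi R δ w.1) := (contDiff_chi R δ).comp contDiff_fst
      have h2 : ContDiff ℝ 1 (fun w : Wm n => 2 - (∑ a, w.2 a ^ 2) / ρ) := by fun_prop
      exact (h1.mul (hst.comp h2)).contDiffAt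
    exact h0.smul (contDiffAt_V hw)
  · simp only [not_forall, not_not] at hw
    obtain ⟨a, b, hab, h⟩ := hw
    have h1 := (continuous_fst.tendsto w).eventually (chi_zero_near (R := R) hδ hab h)
    refine ContDiffAt.congr_of_eventuallyEq (contDiffAt_const (c := (0 : Wm n))) ?_
    filter_upwards [h1] with v hv
    unfold YY ch
    rw [hv, zero_mul, zero_smul]

theorem compact_YY {R δ ρ : ℝ} (hR : 0 < R) (hρ : 0 < ρ) :
    HasCompactSupport (YY R δ ρ : Wm n → Wm n) := by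
  apply HasCompactSupport.of_support_subset_isCompact
    (isCompact_closedBall (0 : Wm n) (max (Real.sqrt (2 * R)) (Real.sqrt (2 * ρ))))
  intro w hw
  rw [Function.mem_support] at hw
  rw [mem_closedBall_zero_iff]
  have h1 : NS w.1 < 2 * R := by
    by_contra h
    apply hw
    unfold YY ch
    rw [chi_zero_of_NS hR (not_lt.mp h), zero_mul, zero_smul]
  have h2 : ∑ a, w.2 a ^ 2 < 2 * ρ := by
    by_contra h
    apply hw
    unfold YY ch
    rw [Real.smoothTransition.zero_of_nonpos, mul_zero, zero_smul]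
    have : 2 ≤ (∑ a, w.2 a ^ 2) / ρ := by
      rw [le_div_iff₀ hρ]; exact not_lt.mp h
    linarith
  rw [Prod.norm_def]
  refine max_le_max ?_ ?_
  · exact norm_le_NS _ (Real.sqrt_nonneg _) (by rw [Real.sq_sqrt (by positivity)]; exact h1.le)
  · rw [pi_norm_le_iff_of_nonneg (Real.sqrt_nonneg _)]
    intro a
    have h3 : w.2 a ^ 2 ≤ ∑ a, w.2 a ^ 2 :=
      Finset.single_le_sum (f := fun a => w.2 a ^ 2) (fun b _ => by positivity) (Finset.mem_univ a)
    rw [Real.norm_eq_abs]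
    apply Real.abs_le_sqrt
    linarith

/-- A region with the flow of the modified field. -/
structure Fl (n : ℕ) where
  R : ℝ
  δ : ℝ
  ρ : ℝ
  hR : 0 < R
  hδ : 0 < δ
  hρ : 0 < ρ
  K : NNReal
  g : ℝ → Wm n → Wm n
  hK : LipschitzWith K (YY R δ ρ : Wm n → Wm n)
  hg : IsFlowOf (YY R δ ρ : Wm n → Wm n) g

theorem exists_fl (n : ℕ) {R δ ρ : ℝ} (hR : 0 < R) (hδ : 0 < δ) (hρ : 0 < ρ) :
    ∃ P : Fl n, P.R = R ∧ P.δ = δ ∧ P.ρ = ρ := by
  obtain ⟨K, hK⟩ := ContDiff.lipschitzWith_of_hasCompactSupport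
    (compact_YY (n := n) (δ := δ) hR hρ) (contDiff_YY hδ) one_ne_zero
  obtain ⟨M, hM⟩ := (contDiff_YY (n := n) (R := R) (ρ := ρ) hδ).continuous.bounded_above_of_compact_support
    (compact_YY hR hρ)
  have hM' : ∀ x, ‖YY R δ ρ x‖ ≤ ((Real.toNNReal M : NNReal) : ℝ) := fun x =>
    (hM x).trans (Real.le_coe_toNNReal M)
  choose γ h0 h1 using fun x : Wm n => exists_solution hK hM' x
  exact ⟨⟨R, δ, ρ, hR, hδ, hρ, K, fun t x => γ x t, hK, ⟨h0, fun x t => h1 x t⟩⟩, rfl, rfl, rfl⟩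

/-- Rotation. -/
noncomputable def rot (c : ℂ) (w : Wm n) : Wm n := (c • w.1, w.2)

/-- Rotation as a real linear map. -/
noncomputable def rotW (c : ℂ) : Wm n →L[ℝ] Wm n :=
  (((c • ContinuousLinearMap.id ℂ (Ph n)).restrictScalars ℝ).comp
    (ContinuousLinearMap.fst ℝ (Ph n) (Fin n → ℝ))).prod (ContinuousLinearMap.snd ℝ (Ph n) (Fin n → ℝ))

theorem rotW_apply (c : ℂ) (w : Wm n) : rotW c w = rot c w := rfl

theorem YY_rot {R δ ρ : ℝ} {c : ℂ} (hc : ‖c‖ = 1) (w : Wm n) :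
    YY R δ ρ (rot c w) = rot c (YY R δ ρ w) := by
  unfold YY ch V rot
  simp only
  rw [chi_smul hc, vf_smul hc]
  ext a
  · simp [mul_left_comm]
  · simp [mul_left_comm]
  · simp

namespace Fl

variable (P : Fl n)

/-- The region. -/
def S : Set (Wm n) := Reg P.R P.δ P.ρ

/-- The field as a continuous map. -/
noncomputable def X : C(Wm n, Wm n) := ⟨YY P.R P.δ P.ρ, (contDiff_YY P.hδ).continuous⟩

theorem cd : ContDiff ℝ 1 (fun p : ℝ × Wm n => P.g p.1 p.2) := by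
  have h : ContDiff ℝ ((1:ℕ):WithTop ℕ∞) P.X := by
    have h0 := contDiff_YY (n := n) (R := P.R) (ρ := P.ρ) P.hδ
    rw [show (P.X : Wm n → Wm n) = YY P.R P.δ P.ρ from rfl]
    simpa using h0
  have := contDiff_flow (X := P.X) (m := 1) one_ne_zero h P.hK P.hg
  simpa using this

theorem add (t s : ℝ) (w : Wm n) : P.g (t + s) w = P.g t (P.g s w) :=
  P.hg.add P.hK t s w

theorem uniq {α β : ℝ → Wm n} (hα : ∀ t, HasDerivAt α (YY P.R P.δ P.ρ (α t)) t)
    (hβ : ∀ t, HasDerivAt β (YY P.R P.δ P.ρ (β t)) t) (h : α 0 = β 0) : α = β :=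
  ODE_solution_unique_univ (v := fun _ => YY P.R P.δ P.ρ) (s := fun _ => Set.univ) (K := P.K)
    (t₀ := 0) (fun _ => P.hK.lipschitzOnWith) (fun t => ⟨hα t, trivial⟩)
    (fun t => ⟨hβ t, trivial⟩) h

theorem smul {c : ℂ} (hc : ‖c‖ = 1) (t : ℝ) (w : Wm n) : P.g t (rot c w) = rot c (P.g t w) := by
  have h : (fun t => P.g t (rot c w)) = fun t => rot c (P.g t w) := by
    refine P.uniq (fun t => P.hg.deriv _ t) (fun t => ?_) ?_
    · rw [YY_rot hc]
      have h1 : HasDerivAt (fun t => rotW c (P.g t w)) (rotW c (YY P.R P.δ P.ρ (P.g t w))) t :=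
        HasFDerivAt.comp_hasDerivAt (l := rotW c) (l' := rotW c) t (rotW c).hasFDerivAt
          (P.hg.deriv w t)
      simp only [rotW_apply] at h1
      exact h1
    · simp only [P.hg.zero]
  exact congrFun h t

theorem snd_eq (t : ℝ) (w : Wm n) : (P.g t w).2 = w.2 := by
  have hd : ∀ t, HasDerivAt (fun t => (P.g t w).2) 0 t := by
    intro t
    have h1 := (ContinuousLinearMap.snd ℝ (Ph n) (Fin n → ℝ)).hasFDerivAt.comp_hasDerivAt t
      (P.hg.deriv w t)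
    have h2 : (ContinuousLinearMap.snd ℝ (Ph n) (Fin n → ℝ)) (YY P.R P.δ P.ρ (P.g t w)) = 0 := by
      change (YY P.R P.δ P.ρ (P.g t w)).2 = 0
      unfold YY V
      simp
    rw [h2] at h1
    exact h1
  have := is_const_of_deriv_eq_zero (fun t => (hd t).differentiableAt) (fun t => (hd t).deriv) t 0
  rw [this, P.hg.zero]

theorem of_sol {m : Fin n → ℝ} {x : ℝ → Ph n} (hx : IsSol m Set.univ x)
    (hS : ∀ t, (x t, m) ∈ P.S) (t : ℝ) : P.g t (x 0, m) = (x t, m) := by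
  have h : (fun t => P.g t (x 0, m)) = fun t => (x t, m) := by
    refine P.uniq (fun t => P.hg.deriv _ t) (fun t => ?_) ?_
    · rw [YY_one P.hR P.hδ P.hρ (hS t)]
      exact (hx.hasDerivAt t).prodMk (hasDerivAt_const t m)
    · simp only [P.hg.zero]
  exact congrFun h t

/-- Orbit segments near an orbit segment in the region stay in the region. -/
theorem near {w0 : Wm n} {T : ℝ} (hS : ∀ t ∈ Set.Icc 0 T, P.g t w0 ∈ P.S) :
    ∀ᶠ w in 𝓝 w0, ∀ t ∈ Set.Icc 0 T, P.g t w ∈ P.S := by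
  have hc : Continuous (fun p : Wm n × ℝ => P.g p.2 p.1) := by
    have h1 : Continuous (fun p : Wm n × ℝ => (p.2, p.1)) := by fun_prop
    exact P.cd.continuous.comp h1
  have hO : IsOpen {p : Wm n × ℝ | P.g p.2 p.1 ∈ P.S} := (isOpen_Reg P.R P.δ P.ρ).preimage hc
  refine isCompact_Icc.eventually_forall_of_forall_eventually fun t ht => ?_
  exact hO.mem_nhds (hS t ht)

/-- A solution which starts where the modified flow stays in the region agrees with it. -/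
theorem agree {m : Fin n → ℝ} {x : ℝ → Ph n} (hx : IsSol m Set.univ x) {T : ℝ}
    (hS : ∀ t ∈ Set.Icc 0 T, P.g t (x 0, m) ∈ P.S) {t : ℝ} (ht : t ∈ Set.Icc 0 T) :
    P.g t (x 0, m) = (x t, m) := by
  have hgc : Continuous (fun t => P.g t (x 0, m)) :=
    continuous_iff_continuousAt.mpr fun t => (P.hg.deriv (x 0, m) t).continuousAt
  have hcl : IsClosed ({t | P.g t (x 0, m) = (x t, m)} ∩ Set.Icc 0 T) :=
    (isClosed_eq hgc (hx.continuous.prodMk continuous_const)).inter isClosed_Icc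
  have h0 : (0:ℝ) ∈ {t | P.g t (x 0, m) = (x t, m)} := P.hg.zero _
  refine hcl.Icc_subset_of_forall_mem_nhdsWithin h0 ?_ ht
  rintro t ⟨ht1, ht2⟩
  refine mem_nhdsWithin_of_mem_nhds ?_
  have ht1 : P.g t (x 0, m) = (x t, m) := ht1
  have hne : ∀ a b, a ≠ b → ((x t, m) : Wm n).1.1 a ≠ ((x t, m) : Wm n).1.1 b := (hx.mem t).1
  obtain ⟨K, s, hs, hL⟩ := (contDiffAt_V hne).exists_lipschitzOnWith
  have h1 : ∀ᶠ u in 𝓝 t, P.g u (x 0, m) ∈ s := hgc.continuousAt (by rw [ht1]; exact hs)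
  have h2 : ∀ᶠ u in 𝓝 t, (x u, m) ∈ s :=
    (hx.continuous.prodMk continuous_const).continuousAt hs
  have h3 : ∀ᶠ u in 𝓝 t, P.g u (x 0, m) ∈ P.S :=
    hgc.continuousAt ((isOpen_Reg P.R P.δ P.ρ).mem_nhds (hS t ⟨ht2.1, ht2.2.le⟩))
  have hf : ∀ᶠ u in 𝓝 t, HasDerivAt (fun t => P.g t (x 0, m))
      ((fun (_ : ℝ) => (V : Wm n → Wm n)) u (P.g u (x 0, m))) u ∧ P.g u (x 0, m) ∈ (fun _ : ℝ => s) u := by
    filter_upwards [h1, h3] with u hu1 hu3
    refine ⟨?_, hu1⟩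
    have := P.hg.deriv (x 0, m) u
    rw [YY_one P.hR P.hδ P.hρ hu3] at this
    exact this
  have hg : ∀ᶠ u in 𝓝 t, HasDerivAt (fun t => ((x t, m) : Wm n))
      ((fun (_ : ℝ) => (V : Wm n → Wm n)) u (x u, m)) u ∧ (x u, m) ∈ (fun _ : ℝ => s) u :=
    h2.mono fun u hu => ⟨(hx.hasDerivAt u).prodMk (hasDerivAt_const u m), hu⟩
  exact ODE_solution_unique_of_eventually (Eventually.of_forall fun _ => hL) hf hg ht1

end Fl

end Pool.Agent.D0H95.PL
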