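import Pool.Agent.D0H95.PL.Lim

/-!
The linearized Kepler problem along a circular orbit.
-/

set_option autoImplicit false

namespace Pool.Agent.D0H95.PL

open Pool.Agent.W821.TB Pool.Agent.D0H95.NB Finset Filter Topology

/-- The Kepler force. -/
noncomputable def GK (M : ℝ) (r : ℂ) : ℂ := -((M / ‖r‖ ^ 3 : ℝ) : ℂ) * r

theorem diff_GK (M : ℝ) {r : ℂ} (hr : r ≠ 0) : DifferentiableAt ℝ (GK M) r := by
  unfold GK
  have hn : ContDiffAt ℝ 1 (fun r : ℂ => ‖r‖) r := contDiffAt_id.norm ℝ hr
  have hn3 : ContDiffAt ℝ 1 (fun r : ℂ => M / ‖r‖ ^ 3) r :=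
    contDiffAt_const.div (hn.pow 3) (pow_ne_zero 3 (norm_ne_zero_iff.2 hr))
  have ho : ContDiffAt ℝ 1 (fun r : ℂ => -((M / ‖r‖ ^ 3 : ℝ) : ℂ)) r :=
    ((Complex.ofRealCLM.contDiff.contDiffAt).comp r hn3).neg
  exact (ho.mul contDiffAt_id).differentiableAt one_ne_zero

theorem dGK (M : ℝ) {r : ℂ} (hr : r ≠ 0) (a b : ℝ) :
    fderiv ℝ (GK M) r (((a : ℂ) + b * Complex.I) * r) =
      ((M / ‖r‖ ^ 3 : ℝ) : ℂ) * ((2 * a : ℂ) - b * Complex.I) * r := by
  have hd := (diff_GK M hr).hasFDerivAt
  -- rotation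
  have h1 : fderiv ℝ (GK M) r (Complex.I * r) = Complex.I * GK M r := by
    have e1 : HasDerivAt (fun s : ℝ => Complex.exp (s * Complex.I)) Complex.I 0 := by
      have h4 : HasDerivAt (fun s : ℝ => (s : ℂ) * Complex.I) Complex.I 0 := by
        have := (Complex.ofRealCLM.hasDerivAt (x := (0:ℝ))).mul_const Complex.I
        simpa using this
      have := h4.cexp
      simpa using this
    have e2 : HasDerivAt (fun s : ℝ => Complex.exp (s * Complex.I) * r) (Complex.I * r) 0 :=
      e1.mul_const r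
    have e0 : (fun s : ℝ => Complex.exp (s * Complex.I) * r) 0 = r := by simp
    have e3 : HasFDerivAt (GK M) (fderiv ℝ (GK M) r)
        ((fun s : ℝ => Complex.exp (s * Complex.I) * r) 0) := by rw [e0]; exact hd
    have e4 := e3.comp_hasDerivAt (0:ℝ) e2
    have e5 : (GK M ∘ fun s : ℝ => Complex.exp (s * Complex.I) * r) =
        fun s : ℝ => Complex.exp (s * Complex.I) * GK M r := by
      funext s
      simp only [Function.comp_apply]
      unfold GK
      rw [norm_mul, norm_expI, one_mul]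
      ring
    rw [e5] at e4
    exact e4.unique (e1.mul_const (GK M r))
  -- scaling
  have h2 : fderiv ℝ (GK M) r r = -2 * GK M r := by
    have e2 : HasDerivAt (fun s : ℝ => (s : ℂ) * r) r 1 := by
      have := (Complex.ofRealCLM.hasDerivAt (x := (1:ℝ))).mul_const r
      simpa using this
    have e0 : (fun s : ℝ => (s : ℂ) * r) 1 = r := by simp
    have e3 : HasFDerivAt (GK M) (fderiv ℝ (GK M) r) ((fun s : ℝ => (s : ℂ) * r) 1) := by
      rw [e0]; exact hd
    have e4 := e3.comp_hasDerivAt (1:ℝ) e2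
    have e5 : (GK M ∘ fun s : ℝ => (s : ℂ) * r) =ᶠ[𝓝 1]
        fun s : ℝ => (((s ^ 2)⁻¹ : ℝ) : ℂ) * GK M r := by
      filter_upwards [lt_mem_nhds (show (0:ℝ) < 1 by norm_num)] with s hs
      simp only [Function.comp_apply]
      unfold GK
      rw [norm_mul, Complex.norm_real, Real.norm_of_nonneg hs.le]
      have hs' : (s : ℂ) ≠ 0 := by exact_mod_cast hs.ne'
      have hr' : ((‖r‖ : ℝ) : ℂ) ≠ 0 := by exact_mod_cast norm_ne_zero_iff.mpr hr
      push_cast
      field_simp
    have h : HasDerivAt (fun r : ℝ => r ^ 2) 2 1 := by simpa using hasDerivAt_pow 2 (1:ℝ)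
    have h' : HasDerivAt (fun r : ℝ => (r ^ 2)⁻¹) (-2 / (1 ^ 2) ^ 2) 1 := h.fun_inv (by norm_num)
    have h'' : HasDerivAt (fun s : ℝ => (((s ^ 2)⁻¹ : ℝ) : ℂ) * GK M r)
        (((-2 / (1 ^ 2) ^ 2 : ℝ) : ℂ) * GK M r) 1 := (h'.ofReal_comp).mul_const (GK M r)
    have h3 := (e4.congr_of_eventuallyEq e5.symm).unique h''
    rw [h3]
    norm_num
  have h3 : ((a : ℂ) + b * Complex.I) * r = a • r + b • (Complex.I * r) := by
    rw [Complex.real_smul, Complex.real_smul]; ring
  rw [h3, map_add, map_smul, map_smul, h1, h2, Complex.real_smul, Complex.real_smul]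
  unfold GK
  ring_nf

/-- Twisted periodic solutions of the linearized Kepler problem along a circular orbit. -/
theorem kepler_lin {M ν : ℝ} {q : ℂ} (hq : q ≠ 0) (hν : ν ^ 2 * ‖q‖ ^ 3 = M) {T : ℝ} (hT : 0 < T)
    (hc : Complex.exp (ν * T * Complex.I) ≠ 1) {h k : ℝ → ℂ} (hh : ∀ t, HasDerivAt h (k t) t)
    (hk : ∀ t : ℝ, HasDerivAt k (fderiv ℝ (GK M) (Complex.exp (ν * t * Complex.I) * q) (h t)) t)
    (hp : ∀ t : ℝ, h (t + T) = Complex.exp (ν * T * Complex.I) * h t)
    (hp' : ∀ t : ℝ, k (t + T) = Complex.exp (ν * T * Complex.I) * k t) :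
    ∃ σ : ℝ, ∀ t : ℝ, h t = σ * (Complex.I * (Complex.exp (ν * t * Complex.I) * q)) ∧
      k t = σ * (Complex.I * (ν * Complex.I * (Complex.exp (ν * t * Complex.I) * q))) := by
  have hν0 : ν ≠ 0 := by
    rintro rfl
    apply hc
    simp
  set e : ℝ → ℂ := fun t => Complex.exp (-(ν * t * Complex.I)) / q with he
  have heq : ∀ t : ℝ, e t * (Complex.exp (ν * t * Complex.I) * q) = 1 := by
    intro t
    rw [he]
    simp only
    rw [div_mul_eq_mul_div, mul_comm (Complex.exp (ν * t * Complex.I)) q, mul_left_comm,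
      ← Complex.exp_add, neg_add_cancel, Complex.exp_zero, mul_one, div_self hq]
  have hed : ∀ t, HasDerivAt e (-(ν * Complex.I) * e t) t := by
    intro t
    have h1 : HasDerivAt (fun t : ℝ => -((ν : ℂ) * t * Complex.I)) (-(ν * Complex.I)) t := by
      have := (((Complex.ofRealCLM.hasDerivAt (x := t)).const_mul (ν : ℂ)).mul_const Complex.I).fun_neg
      simpa using this
    have h2 := h1.cexp.div_const q
    refine h2.congr_deriv ?_
    rw [he]
    ring
  have heT : ∀ t : ℝ, e (t + T) * Complex.exp (ν * T * Complex.I) = e t := by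
    intro t
    rw [he]
    simp only
    rw [div_mul_eq_mul_div, ← Complex.exp_add]
    congr 2
    push_cast
    ring
  set ζ : ℝ → ℂ := fun t => h t * e t with hζ
  set η : ℝ → ℂ := fun t => k t * e t - ν * Complex.I * ζ t with hη
  have hζd : ∀ t, HasDerivAt ζ (η t) t := by
    intro t
    have h1 := (hh t).mul (hed t)
    refine h1.congr_deriv ?_
    rw [hη, hζ]
    ring
  have hke : ∀ t : ℝ, fderiv ℝ (GK M) (Complex.exp (ν * t * Complex.I) * q) (h t) * e t =
      ν ^ 2 * ((2 * (ζ t).re : ℂ) - (ζ t).im * Complex.I) := by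
    intro t
    have hr : Complex.exp (ν * t * Complex.I) * q ≠ 0 := mul_ne_zero (Complex.exp_ne_zero _) hq
    have h1 : h t = (((ζ t).re : ℂ) + (ζ t).im * Complex.I) * (Complex.exp (ν * t * Complex.I) * q) := by
      rw [Complex.re_add_im, hζ]
      simp only
      rw [mul_assoc, heq, mul_one]
    rw [h1, dGK M hr, mul_assoc, mul_comm _ (e t), heq, mul_one]
    have h2 : ‖Complex.exp (ν * t * Complex.I) * q‖ = ‖q‖ := by
      rw [norm_mul, show (ν : ℂ) * t * Complex.I = ((ν * t : ℝ) : ℂ) * Complex.I by push_cast; ring,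
        norm_expI, one_mul]
    have h3 : M / ‖q‖ ^ 3 = ν ^ 2 := by
      rw [← hν]
      field_simp
    rw [h2, h3]
    push_cast
    ring
  have hηd : ∀ t, HasDerivAt η (3 * ν ^ 2 * (ζ t).re - 2 * ν * Complex.I * η t) t := by
    intro t
    have h1 := ((hk t).mul (hed t)).sub ((hζd t).const_mul (ν * Complex.I : ℂ))
    refine h1.congr_deriv ?_
    rw [hke]
    have h2 : k t * e t = η t + ν * Complex.I * ζ t := by rw [hη]; ring
    have h3 : k t * (-(ν * Complex.I) * e t) = -(ν * Complex.I) * (k t * e t) := by ring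
    rw [h3, h2]
    have h4 : ζ t = (ζ t).re + (ζ t).im * Complex.I := (Complex.re_add_im _).symm
    have h5 : (ν : ℂ) * Complex.I * ((ν : ℂ) * Complex.I * ζ t) = -(ν ^ 2 * ζ t) := by
      linear_combination (ν : ℂ) ^ 2 * ζ t * Complex.I_sq
    have h6 : -((ν : ℂ) * Complex.I) * (η t + ν * Complex.I * ζ t) =
        -(ν * Complex.I * η t) + ν ^ 2 * ζ t := by
      linear_combination -h5
    rw [h6]
    conv_lhs => rw [show (ν : ℂ) ^ 2 * ζ t = ν ^ 2 * ((ζ t).re + (ζ t).im * Complex.I) by rw [← h4]]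
    ring
  -- real parts
  have hAd : ∀ t, HasDerivAt (fun t => (ζ t).re) (η t).re t := fun t =>
    Complex.reCLM.hasFDerivAt.comp_hasDerivAt t (hζd t)
  have hBd : ∀ t, HasDerivAt (fun t => (ζ t).im) (η t).im t := fun t =>
    Complex.imCLM.hasFDerivAt.comp_hasDerivAt t (hζd t)
  have hA'd : ∀ t, HasDerivAt (fun t => (η t).re) (3 * ν ^ 2 * (ζ t).re + 2 * ν * (η t).im) t := by
    intro t
    have h1 : HasDerivAt (fun t => (η t).re)
        (3 * ν ^ 2 * (ζ t).re - 2 * ν * Complex.I * η t : ℂ).re t :=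
      Complex.reCLM.hasFDerivAt.comp_hasDerivAt t (hηd t)
    refine h1.congr_deriv ?_
    rw [show (3 * (ν : ℂ) ^ 2 * (ζ t).re - 2 * ν * Complex.I * η t) =
      ((3 * ν ^ 2 * (ζ t).re : ℝ) : ℂ) - ((2 * ν : ℝ) : ℂ) * (Complex.I * η t) by push_cast; ring]
    rw [Complex.sub_re, Complex.ofReal_re, Complex.re_ofReal_mul, Complex.I_mul_re]
    ring
  have hB'd : ∀ t, HasDerivAt (fun t => (η t).im) (-(2 * ν * (η t).re)) t := by
    intro t
    have h1 : HasDerivAt (fun t => (η t).im)
        (3 * ν ^ 2 * (ζ t).re - 2 * ν * Complex.I * η t : ℂ).im t :=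
      Complex.imCLM.hasFDerivAt.comp_hasDerivAt t (hηd t)
    refine h1.congr_deriv ?_
    rw [show (3 * (ν : ℂ) ^ 2 * (ζ t).re - 2 * ν * Complex.I * η t) =
      ((3 * ν ^ 2 * (ζ t).re : ℝ) : ℂ) - ((2 * ν : ℝ) : ℂ) * (Complex.I * η t) by push_cast; ring]
    rw [Complex.sub_im, Complex.ofReal_im, Complex.im_ofReal_mul, Complex.I_mul_im]
    ring
  set k0 : ℝ := (η 0).im + 2 * ν * (ζ 0).re with hk0
  have hk0c : ∀ t, (η t).im = k0 - 2 * ν * (ζ t).re := by
    intro t
    have hd : ∀ t, HasDerivAt (fun t => (η t).im + 2 * ν * (ζ t).re) 0 t := by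
      intro t
      refine ((hB'd t).add ((hAd t).const_mul (2 * ν))).congr_deriv ?_
      ring
    have := is_const_of_deriv_eq_zero (fun t => (hd t).differentiableAt) (fun t => (hd t).deriv) t 0
    rw [hk0]
    linarith
  set w : ℝ → ℂ := fun t => ((η t).re : ℂ) + Complex.I * ((ν * (ζ t).re - 2 * k0 : ℝ) : ℂ) with hw
  have hwd : ∀ t, HasDerivAt w (ν * Complex.I * w t) t := by
    intro t
    have h1 := (hA'd t).ofReal_comp
    have h2 := ((((hAd t).const_mul ν).sub_const (2 * k0)).ofReal_comp).const_mul Complex.I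
    refine (h1.add h2).congr_deriv ?_
    rw [hk0c, hw]
    push_cast
    linear_combination (-(ν : ℂ) * (ν * (ζ t).re - 2 * k0)) * Complex.I_sq
  have hwe : ∀ t : ℝ, w t = Complex.exp (ν * t * Complex.I) * w 0 := by
    intro t
    have hd : ∀ t : ℝ, HasDerivAt (fun t : ℝ => w t * (e t * q)) 0 t := by
      intro t
      refine ((hwd t).mul ((hed t).mul_const q)).congr_deriv ?_
      ring
    have h1 := is_const_of_deriv_eq_zero (fun t => (hd t).differentiableAt) (fun t => (hd t).deriv) t 0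
    have h2 : e 0 * q = 1 := by
      have := heq 0
      simpa using this
    rw [h2, mul_one] at h1
    rw [← h1]
    linear_combination -(w t) * heq t
  have hζT : ∀ t, ζ (t + T) = ζ t := by
    intro t
    rw [hζ]
    simp only
    rw [hp]
    linear_combination (h t) * heT t
  have hηT : ∀ t, η (t + T) = η t := by
    intro t
    have h1 := hζT t
    rw [hη]
    simp only
    rw [h1, hp']
    linear_combination (k t) * heT t
  have hw0 : w 0 = 0 := by
    have h1 : w T = w 0 := by
      have e1 := hζT 0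
      have e2 := hηT 0
      rw [zero_add] at e1 e2
      rw [hw]
      simp only
      rw [e1, e2]
    rw [hwe T] at h1
    have h2 : (Complex.exp (ν * T * Complex.I) - 1) * w 0 = 0 := by linear_combination h1
    rcases mul_eq_zero.mp h2 with h3 | h3
    · exact absurd (sub_eq_zero.mp h3) hc
    · exact h3
  have hwt : ∀ t, (η t).re = 0 ∧ ν * (ζ t).re = 2 * k0 := by
    intro t
    have h1 := hwe t
    rw [hw0, mul_zero, hw] at h1
    simp only at h1
    have h2 := congrArg Complex.re h1
    have h3 := congrArg Complex.im h1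
    simp at h2 h3
    exact ⟨h2, by linarith⟩
  have hk00 : k0 = 0 := by
    have hd : ∀ t, HasDerivAt (fun t : ℝ => (ζ t).im + 3 * k0 * t) 0 t := by
      intro t
      have h1 : HasDerivAt (fun t : ℝ => 3 * k0 * t) (3 * k0) t := by
        simpa using (hasDerivAt_id t).const_mul (3 * k0)
      refine ((hBd t).add h1).congr_deriv ?_
      have := (hwt t).2
      rw [hk0c]
      linarith
    have h1 := is_const_of_deriv_eq_zero (fun t => (hd t).differentiableAt) (fun t => (hd t).deriv) T 0
    have e1 := hζT 0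
    rw [zero_add] at e1
    rw [e1] at h1
    have h2 : k0 * T = 0 := by linarith
    rcases mul_eq_zero.mp h2 with h | h
    · exact h
    · exact absurd h hT.ne'
  have hA0 : ∀ t, (ζ t).re = 0 := by
    intro t
    have := (hwt t).2
    rw [hk00, mul_zero] at this
    rcases mul_eq_zero.mp this with h | h
    · exact absurd h hν0
    · exact h
  have hη0 : ∀ t, η t = 0 := by
    intro t
    apply Complex.ext
    · exact (hwt t).1
    · rw [hk0c, hk00, hA0]; simp
  refine ⟨(ζ 0).im, fun t => ?_⟩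
  have hB : (ζ t).im = (ζ 0).im := by
    have hd : ∀ t, HasDerivAt (fun t : ℝ => (ζ t).im) 0 t := by
      intro t
      have := hBd t
      rw [hη0] at this
      exact this
    exact is_const_of_deriv_eq_zero (fun t => (hd t).differentiableAt) (fun t => (hd t).deriv) t 0
  have hζt : ζ t = (ζ 0).im * Complex.I := by
    have := Complex.re_add_im (ζ t)
    rw [hA0, hB] at this
    rw [← this]
    simp
  have h1 : h t = ζ t * (Complex.exp (ν * t * Complex.I) * q) := by
    rw [hζ]
    simp only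
    linear_combination -(h t) * heq t
  have h2 : k t = ν * Complex.I * ζ t * (Complex.exp (ν * t * Complex.I) * q) := by
    have h3 : k t * e t = ν * Complex.I * ζ t := by
      have := hη0 t
      rw [hη] at this
      simp only at this
      linear_combination this
    rw [← h3]
    linear_combination -(k t) * heq t
  constructor
  · rw [h1, hζt]; ring
  · rw [h2, hζt]; ring

end Pool.Agent.D0H95.PL
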