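import Pool.Agent.D0H95.PL.Var
import Pool.Agent.D0H95.NB.Main2

/-!
Orbits near a nondegenerate relative periodic orbit of a system in which some masses may vanish.
-/

set_option autoImplicit false

namespace Pool.Agent.D0H95.PL

open Pool.Agent.W821.TB Pool.Agent.D0H95.NB Finset Filter Topology

variable {n : ℕ}

theorem exists_rot {x : ℝ → Ph n} {T : ℝ} (hT : 0 < T) {c : ℂ} (hc : ‖c‖ = 1)
    (h : ∀ t, x (t + T) = c • x t) (t : ℝ) : ∃ s ∈ Set.Icc 0 T, ∃ d : ℂ, ‖d‖ = 1 ∧ x t = d • x s := by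
  have hc0 : c ≠ 0 := by rintro rfl; simp at hc
  set k : ℤ := ⌊t / T⌋ with hk
  have h1 : (k:ℝ) * T ≤ t := by
    have := Int.floor_le (t / T)
    rwa [le_div_iff₀ hT] at this
  have h2 : t < ((k:ℝ) + 1) * T := by
    have := Int.lt_floor_add_one (t / T)
    rwa [div_lt_iff₀ hT] at this
  rcases le_or_gt 0 k with hk0 | hk0
  · have h3 : ((k.toNat : ℕ) : ℝ) = k := by exact_mod_cast Int.toNat_of_nonneg hk0
    have h4 := iter_smul h k.toNat (t - k * T)
    rw [h3, sub_add_cancel] at h4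
    exact ⟨t - k * T, ⟨by linarith, by linarith⟩, c ^ k.toNat, by simp [hc], h4⟩
  · have h3 : (((-k).toNat : ℕ) : ℝ) = -k := by
      exact_mod_cast Int.toNat_of_nonneg (by omega : 0 ≤ -k)
    have h4 := iter_smul h (-k).toNat t
    rw [h3] at h4
    refine ⟨t + -k * T, ⟨by linarith, by linarith⟩, (c ^ (-k).toNat)⁻¹, by simp [hc], ?_⟩
    rw [h4, smul_smul, inv_mul_cancel₀ (pow_ne_zero _ hc0), one_smul]

theorem unit_away {E : Type} [NormedAddCommGroup E] [NormedSpace ℝ E] [FiniteDimensional ℝ E]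
    (S : Submodule ℝ E) {v : E} (hv : v ∉ S) :
    ∃ s ∈ S, ∃ r : ℝ, r ≠ 0 ∧ ‖r • (v - s)‖ = 1 ∧ ∀ u ∈ S, 1 ≤ ‖r • (v - s) - u‖ := by
  have hcl : IsClosed (S : Set E) := S.closed_of_finiteDimensional
  have : ProperSpace E := FiniteDimensional.proper ℝ E
  obtain ⟨y, hy, hd⟩ := hcl.exists_infDist_eq_dist ⟨0, S.zero_mem⟩ v
  have hd0 : 0 < dist v y := dist_pos.mpr (by rintro rfl; exact hv hy)
  refine ⟨y, hy, (dist v y)⁻¹, (inv_pos.mpr hd0).ne', ?_, fun u hu => ?_⟩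
  · rw [norm_smul, norm_inv, Real.norm_of_nonneg hd0.le, dist_eq_norm, inv_mul_cancel₀]
    rw [← dist_eq_norm]; exact hd0.ne'
  · have h1 : y + dist v y • u ∈ S := S.add_mem hy (S.smul_mem _ hu)
    have h2 : dist v y ≤ ‖v - (y + dist v y • u)‖ := by
      have h0 := Metric.infDist_le_dist_of_mem (x := v) h1
      rw [hd, dist_eq_norm v (y + dist v y • u)] at h0
      exact h0
    have h3 : (dist v y)⁻¹ • (v - y) - u = (dist v y)⁻¹ • (v - (y + dist v y • u)) := by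
      rw [smul_sub, smul_sub, smul_add, smul_smul, inv_mul_cancel₀ hd0.ne', one_smul]
      abel
    rw [h3, norm_smul, norm_inv, Real.norm_of_nonneg hd0.le]
    calc (1:ℝ) = (dist v y)⁻¹ * dist v y := (inv_mul_cancel₀ hd0.ne').symm
      _ ≤ (dist v y)⁻¹ * ‖v - (y + dist v y • u)‖ := by gcongr

/-- A normalized third twisted periodic vector. -/
theorem third (hn : 2 ≤ n) {m : Fin n → ℝ} (hm : ∀ a, 0 < m a) {x : ℝ → Ph n}
    (hx : IsSol m Set.univ x) (hre : ¬ IsRelEq x) (hst : LyapunovStable m (Set.range x))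
    {T : ℝ} (hT : 0 < T) {c : ℂ} (hc : ‖c‖ = 1) (hper : ∀ t, x (t + T) = c • x t)
    (P : Fl n) (hS : ∀ t, (x t, m) ∈ P.S) :
    ∃ v : Ph n, ‖v‖ = 1 ∧ v ∈ cm m ∧
      (∀ α β : ℝ, 1 ≤ ‖v - (α • vf m (x 0) + β • (Complex.I • x 0))‖) ∧
      fderiv ℝ (P.g T) (x 0, m) (v, 0) = (c • v, 0) := by
  have hc0 : c ≠ 0 := by rintro rfl; simp at hc
  have hnd := stable_degenerate hn hm hx hre hst hT hc hper
  unfold Nondeg at hnd
  push Not at hnd
  obtain ⟨ξ, hξ, hξp, hξn⟩ := hnd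
  have hξJ : JF m x ξ := fun t => (hξ t).2
  have htriv : ∀ α β : ℝ, JF m x (fun t => α • vf m (x t) + β • (Complex.I • x t)) := by
    intro α β t
    have h1 := ((jf_vf hx t).const_smul α).add ((jf_rot hx t).const_smul β)
    refine h1.congr_deriv ?_
    rw [map_add, map_smul (fderiv ℝ (vf m) (x t)) α, map_smul (fderiv ℝ (vf m) (x t)) β]
  have htp : ∀ α β : ℝ, ∀ t, α • vf m (x (t + T)) + β • (Complex.I • x (t + T)) =
      c • (α • vf m (x t) + β • (Complex.I • x t)) := by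
    intro α β t
    rw [hper, vf_smul hc, smul_add, smul_comm c α, smul_comm c β, smul_comm c Complex.I]
  set u1 := vf m (x 0) with hu1
  set u2 := Complex.I • x 0 with hu2
  have hv : ξ 0 ∉ Submodule.span ℝ {u1, u2} := by
    intro h
    rw [Submodule.mem_span_pair] at h
    obtain ⟨α, β, h⟩ := h
    obtain ⟨t, ht⟩ := hξn α β
    apply ht
    -- choose a nonnegative time
    obtain ⟨N, hN⟩ := exists_nat_gt (-t / T)
    have hN' : 0 ≤ t + N * T := by
      rw [div_lt_iff₀ hT] at hN; linarith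
    have h1 := iter_smul hξp N t
    have h2 := iter_smul (x := fun t => α • vf m (x t) + β • (Complex.I • x t)) (htp α β) N t
    have h3 := P.jac_eq hx hS hξJ hN'
    have h4 := P.jac_eq hx hS (htriv α β) hN'
    rw [← hu1, ← hu2, h, h3, h1, h2] at h4
    exact smul_right_injective _ (pow_ne_zero N hc0) h4
  obtain ⟨s, hs, r, hr0, hr1, hr2⟩ := unit_away _ hv
  rw [Submodule.mem_span_pair] at hs
  obtain ⟨α, β, rfl⟩ := hs
  refine ⟨r • (ξ 0 - (α • u1 + β • u2)), hr1, ?_, fun α' β' => hr2 _ ?_, ?_⟩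
  · have h1 : ξ 0 ∈ (cm m).restrictScalars ℝ := (hξ 0).1
    have h2 : u1 ∈ (cm m).restrictScalars ℝ := vf_mem (sol_cm hx 0)
    have h3 : u2 ∈ (cm m).restrictScalars ℝ := (cm m).smul_mem Complex.I (sol_cm hx 0)
    exact ((cm m).restrictScalars ℝ).smul_mem r (Submodule.sub_mem _ h1
      (Submodule.add_mem _ (Submodule.smul_mem _ α h2) (Submodule.smul_mem _ β h3)))
  · rw [Submodule.mem_span_pair]
    exact ⟨α', β', rfl⟩
  · have hζ : JF m x (fun t => r • (ξ t - (α • vf m (x t) + β • (Complex.I • x t)))) := by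
      intro t
      have h1 := ((hξJ t).sub (htriv α β t)).const_smul r
      refine h1.congr_deriv ?_
      rw [map_smul, map_sub]
    have h1 := P.jac_eq hx hS hζ hT.le
    have h2 := hξp 0
    have h3 := htp α β 0
    rw [zero_add] at h2 h3
    refine Prod.ext ?_ (P.D_snd T _ _)
    change (fderiv ℝ (P.g T) (x 0, m) (r • (ξ 0 - (α • u1 + β • u2)), 0)).1 =
      c • (r • (ξ 0 - (α • u1 + β • u2)))
    rw [hu1, hu2, h1, h2, h3, ← smul_sub, smul_comm]

/-- Centre of mass and momentum of a Jacobi field. -/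
theorem jf_cm {m : Fin n → ℝ} {x ξ : ℝ → Ph n} (hx : IsSol m Set.univ x) (hξ : JF m x ξ)
    (h0 : ξ 0 ∈ cm m) (t : ℝ) : ξ t ∈ cm m := by
  set L1 : Ph n →L[ℝ] ℂ := ∑ a, (m a) • ((ContinuousLinearMap.proj (R := ℝ) (φ := fun _ => ℂ) a).comp
    (ContinuousLinearMap.fst ℝ (Fin n → ℂ) (Fin n → ℂ))) with hL1
  set L2 : Ph n →L[ℝ] ℂ := ∑ a, (m a) • ((ContinuousLinearMap.proj (R := ℝ) (φ := fun _ => ℂ) a).comp
    (ContinuousLinearMap.snd ℝ (Fin n → ℂ) (Fin n → ℂ))) with hL2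
  have a1 : ∀ z : Ph n, L1 z = ∑ a, (m a : ℂ) * z.1 a := by
    intro z
    rw [hL1, _root_.sum_apply]
    refine Finset.sum_congr rfl fun a _ => ?_
    simp
  have a2 : ∀ z : Ph n, L2 z = ∑ a, (m a : ℂ) * z.2 a := by
    intro z
    rw [hL2, _root_.sum_apply]
    refine Finset.sum_congr rfl fun a _ => ?_
    simp
  have hvfd : ∀ t, HasFDerivAt (vf m) (fderiv ℝ (vf m) (x t)) (x t) := fun t =>
    ((contDiffAt_vf (hx.mem t).1).differentiableAt one_ne_zero).hasFDerivAt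
  have b2 : ∀ t v, L2 (fderiv ℝ (vf m) (x t) v) = 0 := by
    intro t v
    have h1 : HasFDerivAt (fun z => L2 (vf m z)) (L2.comp (fderiv ℝ (vf m) (x t))) (x t) :=
      L2.hasFDerivAt.comp (x t) (hvfd t)
    have h2 : (fun z => L2 (vf m z)) = fun _ => 0 := by
      funext z
      rw [a2]
      exact sum_acc m z.1
    rw [h2] at h1
    exact congrArg (fun L : Ph n →L[ℝ] ℂ => L v) (h1.unique (hasFDerivAt_const 0 (x t)))
  have b1 : ∀ t v, L1 (fderiv ℝ (vf m) (x t) v) = L2 v := by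
    intro t v
    have h1 : HasFDerivAt (fun z => L1 (vf m z)) (L1.comp (fderiv ℝ (vf m) (x t))) (x t) :=
      L1.hasFDerivAt.comp (x t) (hvfd t)
    have h2 : (fun z => L1 (vf m z)) = fun z => L2 z := by
      funext z
      rw [a1, a2]
      rfl
    rw [h2] at h1
    exact congrArg (fun L : Ph n →L[ℝ] ℂ => L v) (h1.unique L2.hasFDerivAt)
  have c2 : ∀ t, L2 (ξ t) = 0 := by
    intro t
    have hd : ∀ t, HasDerivAt (fun t => L2 (ξ t)) 0 t := by
      intro t
      have h1 : HasDerivAt (fun t => L2 (ξ t)) (L2 (fderiv ℝ (vf m) (x t) (ξ t))) t :=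
        L2.hasFDerivAt.comp_hasDerivAt t (hξ t)
      rwa [b2] at h1
    have h1 := is_const_of_deriv_eq_zero (fun t => (hd t).differentiableAt) (fun t => (hd t).deriv) t 0
    rw [h1, a2]
    exact (mem_cm.mp h0).2
  have c1 : ∀ t, L1 (ξ t) = 0 := by
    intro t
    have hd : ∀ t, HasDerivAt (fun t => L1 (ξ t)) 0 t := by
      intro t
      have h1 : HasDerivAt (fun t => L1 (ξ t)) (L1 (fderiv ℝ (vf m) (x t) (ξ t))) t :=
        L1.hasFDerivAt.comp_hasDerivAt t (hξ t)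
      rwa [b1, c2] at h1
    have h1 := is_const_of_deriv_eq_zero (fun t => (hd t).differentiableAt) (fun t => (hd t).deriv) t 0
    rw [h1, a1]
    exact (mem_cm.mp h0).1
  exact mem_cm.mpr ⟨by rw [← a1]; exact c1 t, by rw [← a2]; exact c2 t⟩

/-- **Orbits near a nondegenerate one, masses near the given ones, are not Lyapunov stable.** -/
theorem near_limit (hn : 2 ≤ n) {m0 : Fin n → ℝ} {x0 : ℝ → Ph n} (hx0 : IsSol m0 Set.univ x0)
    (hre : ¬ IsRelEq x0) {T0 : ℝ} (hT0 : 0 < T0) {c0 : ℂ} (hc0 : ‖c0‖ = 1)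
    (hper0 : ∀ t, x0 (t + T0) = c0 • x0 t) (hnd : Nondeg m0 x0 T0 c0) :
    ∃ ε : ℝ, 0 < ε ∧ ∀ m : Fin n → ℝ, (∀ a, 0 < m a) → ‖m - m0‖ < ε →
      ∀ x : ℝ → Ph n, IsSol m Set.univ x → ‖x 0 - x0 0‖ < ε → ∀ (T : ℝ) (c : ℂ), |T - T0| < ε →
        ‖c‖ = 1 → (∀ t, x (t + T) = c • x t) → ¬ LyapunovStable m (Set.range x) := by
  by_contra hcon
  push Not at hcon
  choose! m hm hmn x hx hxn T c hTn hc hper hst using fun k : ℕ =>
    hcon (1 / ((k:ℝ) + 1)) (by positivity)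
  have hlim : Tendsto (fun k : ℕ => 1 / ((k:ℝ) + 1)) atTop (𝓝 0) :=
    tendsto_one_div_add_atTop_nhds_zero_nat
  have hml : Tendsto m atTop (𝓝 m0) := by
    rw [tendsto_iff_norm_sub_tendsto_zero]
    exact squeeze_zero (fun _ => norm_nonneg _) (fun k => (hmn k).le) hlim
  have hxl : Tendsto (fun k => x k 0) atTop (𝓝 (x0 0)) := by
    rw [tendsto_iff_norm_sub_tendsto_zero]
    exact squeeze_zero (fun _ => norm_nonneg _) (fun k => (hxn k).le) hlim
  have hTl : Tendsto T atTop (𝓝 T0) := by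
    rw [tendsto_iff_norm_sub_tendsto_zero]
    exact squeeze_zero (fun _ => norm_nonneg _) (fun k => (hTn k).le) hlim
  have hwl : Tendsto (fun k => (x k 0, m k)) atTop (𝓝 (x0 0, m0)) := hxl.prodMk_nhds hml
  -- the flow
  obtain ⟨R, δ, hR, hδ, hRg⟩ := exists_region hx0 hT0 hc0 hper0
  have hρ : 0 < (∑ a, m0 a ^ 2) + 1 := by positivity
  obtain ⟨P, hPR, hPδ, hPρ⟩ := exists_fl n hR hδ hρ
  have hS0 : ∀ t, (x0 t, m0) ∈ P.S := by
    intro t
    unfold Fl.S Reg
    rw [hPR, hPδ, hPρ]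
    exact ⟨hRg t, by simp⟩
  have hg0 := P.of_sol hx0 hS0
  have hnear := P.near (w0 := (x0 0, m0)) (T := T0 + 1) (fun t _ => by rw [hg0]; exact hS0 t)
  have hTpos : ∀ᶠ k in atTop, 0 < T k := hTl.eventually (lt_mem_nhds hT0)
  have hTlt : ∀ᶠ k in atTop, T k < T0 + 1 := hTl.eventually (gt_mem_nhds (by linarith))
  have hgood : ∀ᶠ k in atTop, (∀ t ∈ Set.Icc 0 (T0 + 1), P.g t (x k 0, m k) = (x k t, m k)) ∧
      ∀ t, (x k t, m k) ∈ P.S := by
    filter_upwards [hwl.eventually hnear, hTpos, hTlt] with k h1 h2 h3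
    have h4 : ∀ t ∈ Set.Icc 0 (T0 + 1), P.g t (x k 0, m k) = (x k t, m k) :=
      fun t ht => P.agree (hx k) h1 ht
    refine ⟨h4, fun t => ?_⟩
    obtain ⟨s, hs, d, hd, hds⟩ := exists_rot h2 (hc k) (hper k) t
    have h5 : (x k s, m k) ∈ P.S := by
      have h6 : s ∈ Set.Icc 0 (T0 + 1) := ⟨hs.1, hs.2.trans h3.le⟩
      rw [← h4 s h6]
      exact h1 s h6
    rw [hds]
    exact ⟨Rg_smul hd h5.1, h5.2⟩
  -- not relative equilibria
  have hnre : ∀ᶠ k in atTop, ¬ IsRelEq (x k) := by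
    have h1 : ∃ t ∈ Set.Icc 0 T0, ∃ a b, ‖(x0 t).1 a - (x0 t).1 b‖ ≠
        ‖(x0 0).1 a - (x0 0).1 b‖ := by
      by_contra h
      push Not at h
      apply hre
      intro t a b
      obtain ⟨s, hs, d, hd, hds⟩ := exists_rot hT0 hc0 hper0 t
      rw [hds, ← h s hs a b]
      have : (d • x0 s).1 a - (d • x0 s).1 b = d * ((x0 s).1 a - (x0 s).1 b) := by simp [mul_sub]
      rw [this, norm_mul, hd, one_mul]
    obtain ⟨t, ht, a, b, hab⟩ := h1
    have h2 : Tendsto (fun k => P.g t (x k 0, m k)) atTop (𝓝 (P.g t (x0 0, m0))) :=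
      ((P.cd_t t).continuous.tendsto _).comp hwl
    have h3 : Tendsto (fun k => ‖(P.g t (x k 0, m k)).1.1 a - (P.g t (x k 0, m k)).1.1 b‖) atTop
        (𝓝 ‖(P.g t (x0 0, m0)).1.1 a - (P.g t (x0 0, m0)).1.1 b‖) := by
      have hc : Continuous (fun w : Wm n => ‖w.1.1 a - w.1.1 b‖) := by fun_prop
      exact (hc.tendsto _).comp h2
    have h4 : Tendsto (fun k => ‖(x k 0).1 a - (x k 0).1 b‖) atTop
        (𝓝 ‖(x0 0).1 a - (x0 0).1 b‖) := by
      have hc : Continuous (fun z : Ph n => ‖z.1 a - z.1 b‖) := by fun_prop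
      exact (hc.tendsto _).comp hxl
    rw [hg0] at h3
    have h5 := (h3.sub h4).eventually_ne (sub_ne_zero.mpr hab)
    filter_upwards [h5, hgood] with k hk1 hk2 hk3
    apply hk1
    rw [hk2.1 t ⟨ht.1, by linarith [ht.2]⟩, sub_eq_zero]
    exact hk3 t a b
  -- the third vectors
  have hthird : ∀ᶠ k in atTop, ∃ v : Ph n, ‖v‖ = 1 ∧ v ∈ cm (m k) ∧
      (∀ α β : ℝ, 1 ≤ ‖v - (α • vf (m k) (x k 0) + β • (Complex.I • x k 0))‖) ∧
      fderiv ℝ (P.g (T k)) (x k 0, m k) (v, 0) = (c k • v, 0) := by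
    filter_upwards [hgood, hTpos, hnre] with k h1 h2 h3
    exact third hn (hm k) (hx k) h3 (hst k) h2 (hc k) (hper k) P h1.2
  obtain ⟨N, hN⟩ := eventually_atTop.mp (hthird.and hgood)
  choose v hv1 hvcm hvd hvf using fun k : ℕ => (hN (k + N) (by omega)).1
  -- compactness
  have hcomp : IsCompact (Metric.closedBall (0 : Ph n) 1 ×ˢ Metric.closedBall (0 : ℂ) 1) :=
    (isCompact_closedBall _ _).prod (isCompact_closedBall _ _)
  obtain ⟨⟨v0, c1⟩, -, φ, hφ, hφl⟩ := hcomp.tendsto_subseq (x := fun k => (v k, c (k + N)))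
    (fun k => ⟨by simp [hv1], by simp [hc]⟩)
  have hsh : Tendsto (fun k => φ k + N) atTop atTop :=
    (tendsto_add_atTop_nat N).comp hφ.tendsto_atTop
  have hv0 : Tendsto (fun k => v (φ k)) atTop (𝓝 v0) := (continuous_fst.tendsto _).comp hφl
  have hc1 : Tendsto (fun k => c (φ k + N)) atTop (𝓝 c1) := (continuous_snd.tendsto _).comp hφl
  have hw := hwl.comp hsh
  have hTs := hTl.comp hsh
  have hxs := hxl.comp hsh
  have hms := hml.comp hsh
  -- the limit rotation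
  have hc01 : c1 = c0 := by
    have h1 : Tendsto (fun k => P.g (T (φ k + N)) (x (φ k + N) 0, m (φ k + N))) atTop
        (𝓝 (P.g T0 (x0 0, m0))) :=
      (P.cd.continuous.tendsto (T0, (x0 0, m0))).comp (hTs.prodMk_nhds hw)
    have h2 : ∀ᶠ k in atTop, P.g (T (φ k + N)) (x (φ k + N) 0, m (φ k + N)) =
        (c (φ k + N) • x (φ k + N) 0, m (φ k + N)) := by
      filter_upwards [hsh.eventually hgood, hsh.eventually hTpos, hsh.eventually hTlt] with k h3 h4 h5
      rw [h3.1 _ ⟨h4.le, h5.le⟩]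
      have := hper (φ k + N) 0
      rw [zero_add] at this
      rw [this]
    have h3 : Tendsto (fun k => (c (φ k + N) • x (φ k + N) 0, m (φ k + N))) atTop
        (𝓝 (c1 • x0 0, m0)) := (hc1.smul hxs).prodMk_nhds hms
    have h4 := tendsto_nhds_unique (h1.congr' h2) h3
    rw [hg0] at h4
    have h5 : x0 T0 = c1 • x0 0 := congrArg Prod.fst h4
    have h6 := hper0 0
    rw [zero_add] at h6
    rw [h6] at h5
    obtain ⟨a, ha⟩ := exists_ne_zero hn (hx0.mem 0)
    have h7 : c0 * (x0 0).1 a = c1 * (x0 0).1 a := congrArg (fun z : Ph n => z.1 a) h5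
    exact (mul_right_cancel₀ ha h7).symm
  subst hc01
  -- the limit vector
  have hD0 : fderiv ℝ (P.g T0) (x0 0, m0) (v0, 0) = (c1 • v0, 0) := by
    have h1 : Tendsto (fun k => fderiv ℝ (P.g (T (φ k + N))) (x (φ k + N) 0, m (φ k + N))
        (v (φ k), 0)) atTop (𝓝 (fderiv ℝ (P.g T0) (x0 0, m0) (v0, 0))) :=
      (P.D_cont.tendsto ((T0, (x0 0, m0)), (v0, 0))).comp
        ((hTs.prodMk_nhds hw).prodMk_nhds (hv0.prodMk_nhds tendsto_const_nhds))
    have h2 : Tendsto (fun k => fderiv ℝ (P.g (T (φ k + N))) (x (φ k + N) 0, m (φ k + N))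
        (v (φ k), 0)) atTop (𝓝 (c1 • v0, 0)) := by
      simp only [hvf]
      exact (hc1.smul hv0).prodMk_nhds tendsto_const_nhds
    exact tendsto_nhds_unique h1 h2
  have hcm0 : v0 ∈ cm m0 := by
    rw [mem_cm]
    have h1 : ∀ k, ∑ a, (m (φ k + N) a : ℂ) * (v (φ k)).1 a = 0 ∧
        ∑ a, (m (φ k + N) a : ℂ) * (v (φ k)).2 a = 0 := fun k => mem_cm.mp (hvcm (φ k))
    constructor
    · have h2 : Tendsto (fun k => ∑ a, (m (φ k + N) a : ℂ) * (v (φ k)).1 a) atTop
          (𝓝 (∑ a, (m0 a : ℂ) * v0.1 a)) := by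
        refine tendsto_finsetSum _ fun a _ => ?_
        have h3 : Tendsto (fun k => (m (φ k + N) a : ℂ)) atTop (𝓝 (m0 a : ℂ)) :=
          (Complex.continuous_ofReal.tendsto _).comp (((continuous_apply a).tendsto _).comp hms)
        have h4 : Tendsto (fun k => (v (φ k)).1 a) atTop (𝓝 (v0.1 a)) :=
          (((continuous_apply a).comp continuous_fst).tendsto v0).comp hv0
        exact h3.mul h4
      simp only [h1] at h2
      exact (tendsto_nhds_unique h2 tendsto_const_nhds)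
    · have h2 : Tendsto (fun k => ∑ a, (m (φ k + N) a : ℂ) * (v (φ k)).2 a) atTop
          (𝓝 (∑ a, (m0 a : ℂ) * v0.2 a)) := by
        refine tendsto_finsetSum _ fun a _ => ?_
        have h3 : Tendsto (fun k => (m (φ k + N) a : ℂ)) atTop (𝓝 (m0 a : ℂ)) :=
          (Complex.continuous_ofReal.tendsto _).comp (((continuous_apply a).tendsto _).comp hms)
        have h4 : Tendsto (fun k => (v (φ k)).2 a) atTop (𝓝 (v0.2 a)) :=
          (((continuous_apply a).comp continuous_snd).tendsto v0).comp hv0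
        exact h3.mul h4
      simp only [h1] at h2
      exact (tendsto_nhds_unique h2 tendsto_const_nhds)
  -- the field of the limit
  have hjac := P.jac hx0 hS0 v0
  have hcmt : ∀ t, (fderiv ℝ (P.g t) (x0 0, m0) (v0, 0)).1 ∈ cm m0 := by
    intro t
    have h := jf_cm hx0 hjac
    refine h ?_ t
    rw [P.D_zero]
    exact hcm0
  have hpt : ∀ t, (fderiv ℝ (P.g (t + T0)) (x0 0, m0) (v0, 0)).1 =
      c1 • (fderiv ℝ (P.g t) (x0 0, m0) (v0, 0)).1 := by
    intro t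
    have h6 := hper0 0
    rw [zero_add] at h6
    rw [P.D_add, hD0, hg0, h6]
    exact congrArg Prod.fst (P.D_rot hc0 t (x0 0, m0) (v0, 0))
  obtain ⟨α, β, hαβ⟩ := hnd _ (fun t => ⟨hcmt t, hjac t⟩) hpt
  have h1 := hαβ 0
  rw [P.D_zero] at h1
  have h2 : Tendsto (fun k => ‖v (φ k) - (α • vf (m (φ k + N)) (x (φ k + N) 0) +
      β • (Complex.I • x (φ k + N) 0))‖) atTop
      (𝓝 ‖v0 - (α • vf m0 (x0 0) + β • (Complex.I • x0 0))‖) := by
    have h3 : Tendsto (fun k => vf (m (φ k + N)) (x (φ k + N) 0)) atTop (𝓝 (vf m0 (x0 0))) := by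
      have h4 : ContinuousAt (fun w : Wm n => vf w.2 w.1) (x0 0, m0) := by
        have h5 : ContinuousAt (V : Wm n → Wm n) (x0 0, m0) :=
          (contDiffAt_V (w := (x0 0, m0)) (hx0.mem 0).1).continuousAt
        exact continuous_fst.continuousAt.comp h5
      exact h4.tendsto.comp hw
    exact (hv0.sub ((h3.const_smul α).add ((hxs.const_smul Complex.I).const_smul β))).norm
  have h3 : (1:ℝ) ≤ ‖v0 - (α • vf m0 (x0 0) + β • (Complex.I • x0 0))‖ :=
    ge_of_tendsto' h2 fun k => hvd (φ k) α β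
  rw [← h1, sub_self, norm_zero] at h3
  linarith

end Pool.Agent.D0H95.PL
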