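import Pool.Agent.D0H95.PL.Kep

/-!
Two massless planets on circular orbits.
-/

set_option autoImplicit false

namespace Pool.Agent.D0H95.PL

open Pool.Agent.W821.TB Pool.Agent.D0H95.NB Finset Filter Topology

/-- The masses: a star and two massless planets. -/
def m0 (M : ℝ) : Fin 3 → ℝ := ![M, 0, 0]

/-- The circular motions. -/
noncomputable def circ (ν₁ ν₂ : ℝ) (q₁ q₂ : ℂ) (t : ℝ) : Ph 3 :=
  (![0, Complex.exp (ν₁ * t * Complex.I) * q₁, Complex.exp (ν₂ * t * Complex.I) * q₂],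
   ![0, ν₁ * Complex.I * (Complex.exp (ν₁ * t * Complex.I) * q₁),
     ν₂ * Complex.I * (Complex.exp (ν₂ * t * Complex.I) * q₂)])

theorem norm_e (ν t : ℝ) (q : ℂ) : ‖Complex.exp (ν * t * Complex.I) * q‖ = ‖q‖ := by
  rw [norm_mul, show (ν : ℂ) * t * Complex.I = ((ν * t : ℝ) : ℂ) * Complex.I by push_cast; ring,
    norm_expI, one_mul]

theorem acc0 (M : ℝ) (q : Fin 3 → ℂ) : acc (m0 M) q 0 = 0 := by
  unfold acc
  refine Finset.sum_eq_zero fun b hb => ?_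
  have hb := Finset.ne_of_mem_erase hb
  fin_cases b
  · exact absurd rfl hb
  · simp [m0]
  · simp [m0]

theorem acc1 (M : ℝ) (q : Fin 3 → ℂ) (j : Fin 3) (hj : j ≠ 0) :
    acc (m0 M) q j = GK M (q j - q 0) := by
  unfold acc
  rw [Finset.sum_eq_single 0]
  · unfold GK m0
    simp only [Matrix.cons_val_zero]
    rw [norm_sub_rev]
    ring
  · intro b _ hb
    have : m0 M b = 0 := by
      fin_cases b
      · exact absurd rfl hb
      · simp [m0]
      · simp [m0]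
    rw [this]
    simp
  · intro h
    exact absurd (Finset.mem_erase.mpr ⟨hj.symm, Finset.mem_univ _⟩) h

theorem isSol_circ {M : ℝ} {ν₁ ν₂ : ℝ} {q₁ q₂ : ℂ} (h1 : ν₁ ^ 2 * ‖q₁‖ ^ 3 = M)
    (h2 : ν₂ ^ 2 * ‖q₂‖ ^ 3 = M) (hq1 : q₁ ≠ 0) (hq2 : q₂ ≠ 0) (hq : ‖q₁‖ ≠ ‖q₂‖) :
    IsSol (m0 M) Set.univ (circ ν₁ ν₂ q₁ q₂) := by
  have hG : ∀ (ν t : ℝ) (q : ℂ), q ≠ 0 → ν ^ 2 * ‖q‖ ^ 3 = M →
      GK M (Complex.exp (ν * t * Complex.I) * q) =
        ν * Complex.I * (ν * Complex.I * (Complex.exp (ν * t * Complex.I) * q)) := by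
    intro ν t q hq h
    unfold GK
    rw [norm_e]
    have h3 : M / ‖q‖ ^ 3 = ν ^ 2 := by
      rw [← h]; field_simp
    rw [h3]
    push_cast
    linear_combination (-(ν : ℂ) ^ 2 * (Complex.exp (ν * t * Complex.I) * q)) * Complex.I_sq
  have hd : ∀ (ν t : ℝ) (q : ℂ), HasDerivAt (fun t : ℝ => Complex.exp (ν * t * Complex.I) * q)
      (ν * Complex.I * (Complex.exp (ν * t * Complex.I) * q)) t := by
    intro ν t q
    have h1 : HasDerivAt (fun t : ℝ => (ν : ℂ) * t * Complex.I) (ν * Complex.I) t := by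
      have := ((Complex.ofRealCLM.hasDerivAt (x := t)).const_mul (ν : ℂ)).mul_const Complex.I
      simpa using this
    have h2 := h1.cexp.mul_const q
    refine h2.congr_deriv ?_
    ring
  refine isSol_of (fun t => ⟨fun a b hab => ?_, ?_, ?_⟩) (fun t => ?_)
  · have e1 : Complex.exp (ν₁ * t * Complex.I) * q₁ ≠ 0 := mul_ne_zero (Complex.exp_ne_zero _) hq1
    have e2 : Complex.exp (ν₂ * t * Complex.I) * q₂ ≠ 0 := mul_ne_zero (Complex.exp_ne_zero _) hq2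
    have e3 : Complex.exp (ν₁ * t * Complex.I) * q₁ ≠ Complex.exp (ν₂ * t * Complex.I) * q₂ := by
      intro h
      apply hq
      rw [← norm_e ν₁ t q₁, h, norm_e]
    fin_cases a <;> fin_cases b <;> simp [circ] at hab ⊢
    · exact hq1
    · exact hq2
    · exact hq1
    · exact e3
    · exact hq2
    · exact e3.symm
  · simp [circ, m0, Fin.sum_univ_three]
  · simp [circ, m0, Fin.sum_univ_three]
  · have hf : HasDerivAt (fun t => (circ ν₁ ν₂ q₁ q₂ t).1) (circ ν₁ ν₂ q₁ q₂ t).2 t := by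
      rw [hasDerivAt_pi]
      intro j
      fin_cases j
      · simpa [circ] using hasDerivAt_const t (0:ℂ)
      · simpa [circ] using hd ν₁ t q₁
      · simpa [circ] using hd ν₂ t q₂
    have hs : HasDerivAt (fun t => (circ ν₁ ν₂ q₁ q₂ t).2)
        (acc (m0 M) (circ ν₁ ν₂ q₁ q₂ t).1) t := by
      rw [hasDerivAt_pi]
      intro j
      fin_cases j
      · simp only [Fin.zero_eta]
        rw [acc0]
        simpa [circ] using hasDerivAt_const t (0:ℂ)
      · simp only [Fin.mk_one]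
        rw [acc1 M _ 1 (by decide)]
        have h3 := (hd ν₁ t q₁).const_mul (ν₁ * Complex.I)
        have h4 := hG ν₁ t q₁ hq1 h1
        simp only [circ, Matrix.cons_val_one, Matrix.cons_val_zero, sub_zero]
        rw [h4]
        exact h3
      · rw [acc1 M _ _ (by decide)]
        have h3 := (hd ν₂ t q₂).const_mul (ν₂ * Complex.I)
        have h4 := hG ν₂ t q₂ hq2 h2
        simp only [circ, Fin.reduceFinMk, Matrix.cons_val, sub_zero]
        rw [h4]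
        exact h3
    exact hf.prodMk hs

theorem not_relEq_circ {ν₁ ν₂ : ℝ} {q₁ q₂ : ℂ} (hq1 : q₁ ≠ 0) (hq2 : q₂ ≠ 0) (hν : ν₁ ≠ ν₂) :
    ¬ IsRelEq (circ ν₁ ν₂ q₁ q₂) := by
  intro h
  have hν' : ν₁ - ν₂ ≠ 0 := sub_ne_zero.mpr hν
  -- the square of the distance at angle `θ`
  have key : ∀ θ : ℝ, ‖Complex.exp (θ * Complex.I) * q₁ - q₂‖ ^ 2 = ‖q₁ - q₂‖ ^ 2 := by
    intro θ
    have h1 := h (θ / (ν₁ - ν₂)) 1 2
    have h2 : (circ ν₁ ν₂ q₁ q₂ (θ / (ν₁ - ν₂))).1 1 - (circ ν₁ ν₂ q₁ q₂ (θ / (ν₁ - ν₂))).1 2 =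
        Complex.exp (ν₂ * (θ / (ν₁ - ν₂) : ℝ) * Complex.I) *
          (Complex.exp (θ * Complex.I) * q₁ - q₂) := by
      simp only [circ, Matrix.cons_val_one, Matrix.cons_val_zero, Matrix.cons_val]
      rw [mul_sub, ← mul_assoc, ← Complex.exp_add]
      congr 3
      have : (θ : ℂ) = (ν₁ - ν₂) * (θ / (ν₁ - ν₂) : ℝ) := by
        have h3 : θ = (ν₁ - ν₂) * (θ / (ν₁ - ν₂)) := by field_simp
        exact_mod_cast congrArg (fun r : ℝ => (r : ℂ)) h3
      linear_combination -Complex.I * this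
    have h3 : (circ ν₁ ν₂ q₁ q₂ 0).1 1 - (circ ν₁ ν₂ q₁ q₂ 0).1 2 = q₁ - q₂ := by
      simp [circ]
    rw [h2, h3, norm_mul, show (ν₂ : ℂ) * (θ / (ν₁ - ν₂) : ℝ) * Complex.I =
      ((ν₂ * (θ / (ν₁ - ν₂)) : ℝ) : ℂ) * Complex.I by push_cast; ring, norm_expI, one_mul] at h1
    rw [h1]
  have hre : ∀ θ : ℝ, (Complex.exp (θ * Complex.I) * q₁ * (starRingEnd ℂ) q₂).re =
      (q₁ * (starRingEnd ℂ) q₂).re := by
    intro θ
    have h1 := key θ
    have e : ∀ u v : ℂ, ‖u - v‖ ^ 2 = ‖u‖ ^ 2 + ‖v‖ ^ 2 - 2 * (u * (starRingEnd ℂ) v).re := by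
      intro u v
      rw [← Complex.normSq_eq_norm_sq, ← Complex.normSq_eq_norm_sq, ← Complex.normSq_eq_norm_sq,
        Complex.normSq_sub]
    rw [e, e, norm_mul, norm_expI, one_mul] at h1
    linarith
  set w := q₁ * (starRingEnd ℂ) q₂ with hw
  have h1 := hre Real.pi
  have h2 := hre (Real.pi / 2)
  rw [mul_assoc, ← hw, Complex.exp_pi_mul_I] at h1
  rw [mul_assoc, ← hw, show ((Real.pi / 2 : ℝ) : ℂ) * Complex.I = (Real.pi : ℂ) / 2 * Complex.I by
    push_cast; ring, Complex.exp_pi_div_two_mul_I] at h2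
  simp at h1 h2
  have h3 : w.re = 0 := by linarith
  have h4 : w.im = 0 := by linarith
  have h5 : w = 0 := Complex.ext h3 h4
  rw [hw] at h5
  rcases mul_eq_zero.mp h5 with h | h
  · exact hq1 h
  · exact hq2 (by simpa using h)

theorem nondeg_circ {M : ℝ} (hM : 0 < M) {ν₁ ν₂ : ℝ} {q₁ q₂ : ℂ} (h1 : ν₁ ^ 2 * ‖q₁‖ ^ 3 = M)
    (h2 : ν₂ ^ 2 * ‖q₂‖ ^ 3 = M) (hq1 : q₁ ≠ 0) (hq2 : q₂ ≠ 0) (hq : ‖q₁‖ ≠ ‖q₂‖) (hν : ν₁ ≠ ν₂)
    {T : ℝ} (hT : 0 < T) {c : ℂ} (hc1 : Complex.exp (ν₁ * T * Complex.I) = c)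
    (hc2 : Complex.exp (ν₂ * T * Complex.I) = c) (hc : c ≠ 1) :
    Nondeg (m0 M) (circ ν₁ ν₂ q₁ q₂) T c := by
  intro ξ hξ hp
  have hx := isSol_circ h1 h2 hq1 hq2 hq
  have hd1 : ∀ t a, HasDerivAt (fun t => (ξ t).1 a) ((ξ t).2 a) t := by
    intro t a
    have e1 := fst_deriv (hξ t).2 a
    have e2 : HasFDerivAt (vf (m0 M)) (fderiv ℝ (vf (m0 M)) (circ ν₁ ν₂ q₁ q₂ t))
        (circ ν₁ ν₂ q₁ q₂ t) :=
      ((contDiffAt_vf (hx.mem t).1).differentiableAt one_ne_zero).hasFDerivAt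
    have e3 : HasFDerivAt (fun z : Ph 3 => (vf (m0 M) z).1 a)
        (((ContinuousLinearMap.proj (R := ℝ) (φ := fun _ : Fin 3 => ℂ) a).comp
          (ContinuousLinearMap.fst ℝ (Fin 3 → ℂ) (Fin 3 → ℂ))).comp
          (fderiv ℝ (vf (m0 M)) (circ ν₁ ν₂ q₁ q₂ t))) (circ ν₁ ν₂ q₁ q₂ t) :=
      ((ContinuousLinearMap.proj (R := ℝ) (φ := fun _ : Fin 3 => ℂ) a).comp
          (ContinuousLinearMap.fst ℝ (Fin 3 → ℂ) (Fin 3 → ℂ))).hasFDerivAt.comp _ e2
    have e4 : HasFDerivAt (fun z : Ph 3 => z.2 a)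
        ((ContinuousLinearMap.proj (R := ℝ) (φ := fun _ : Fin 3 => ℂ) a).comp
          (ContinuousLinearMap.snd ℝ (Fin 3 → ℂ) (Fin 3 → ℂ))) (circ ν₁ ν₂ q₁ q₂ t) :=
      ((ContinuousLinearMap.proj (R := ℝ) (φ := fun _ : Fin 3 => ℂ) a).comp
          (ContinuousLinearMap.snd ℝ (Fin 3 → ℂ) (Fin 3 → ℂ))).hasFDerivAt
    have e5 := congrArg (fun L : Ph 3 →L[ℝ] ℂ => L (ξ t)) (e3.unique e4)
    exact e1.congr_deriv e5
  have hd2 : ∀ t (j : Fin 3), j ≠ 0 → HasDerivAt (fun t => (ξ t).2 j)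
      (fderiv ℝ (GK M) ((circ ν₁ ν₂ q₁ q₂ t).1 j - (circ ν₁ ν₂ q₁ q₂ t).1 0)
        ((ξ t).1 j - (ξ t).1 0)) t := by
    intro t j hj
    have e1 := snd_deriv (hξ t).2 j
    have e2 : HasFDerivAt (vf (m0 M)) (fderiv ℝ (vf (m0 M)) (circ ν₁ ν₂ q₁ q₂ t))
        (circ ν₁ ν₂ q₁ q₂ t) :=
      ((contDiffAt_vf (hx.mem t).1).differentiableAt one_ne_zero).hasFDerivAt
    have e3 : HasFDerivAt (fun z : Ph 3 => (vf (m0 M) z).2 j)
        (((ContinuousLinearMap.proj (R := ℝ) (φ := fun _ : Fin 3 => ℂ) j).comp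
          (ContinuousLinearMap.snd ℝ (Fin 3 → ℂ) (Fin 3 → ℂ))).comp
          (fderiv ℝ (vf (m0 M)) (circ ν₁ ν₂ q₁ q₂ t))) (circ ν₁ ν₂ q₁ q₂ t) :=
      ((ContinuousLinearMap.proj (R := ℝ) (φ := fun _ : Fin 3 => ℂ) j).comp
          (ContinuousLinearMap.snd ℝ (Fin 3 → ℂ) (Fin 3 → ℂ))).hasFDerivAt.comp _ e2
    have e0 : (fun z : Ph 3 => (vf (m0 M) z).2 j) = fun z : Ph 3 => GK M (z.1 j - z.1 0) := by
      funext z
      exact acc1 M z.1 j hj
    rw [e0] at e3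
    set L : Ph 3 →L[ℝ] ℂ := (ContinuousLinearMap.proj (R := ℝ) (φ := fun _ : Fin 3 => ℂ) j).comp
          (ContinuousLinearMap.fst ℝ (Fin 3 → ℂ) (Fin 3 → ℂ)) -
        (ContinuousLinearMap.proj (R := ℝ) (φ := fun _ : Fin 3 => ℂ) 0).comp
          (ContinuousLinearMap.fst ℝ (Fin 3 → ℂ) (Fin 3 → ℂ)) with hL
    have hne : (circ ν₁ ν₂ q₁ q₂ t).1 j - (circ ν₁ ν₂ q₁ q₂ t).1 0 ≠ 0 :=
      sub_ne_zero.mpr ((hx.mem t).1 j 0 hj)
    have e4 : HasFDerivAt (fun z : Ph 3 => GK M (L z))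
        ((fderiv ℝ (GK M) (L (circ ν₁ ν₂ q₁ q₂ t))).comp L) (circ ν₁ ν₂ q₁ q₂ t) :=
      HasFDerivAt.comp _ (g := GK M) (diff_GK M hne).hasFDerivAt L.hasFDerivAt
    have e5 := congrArg (fun L : Ph 3 →L[ℝ] ℂ => L (ξ t)) (e3.unique e4)
    exact e1.congr_deriv e5
  -- the star does not move
  have hs : ∀ t, (ξ t).1 0 = 0 ∧ (ξ t).2 0 = 0 := by
    intro t
    have e := mem_cm.mp (hξ t).1
    have hM' : (M : ℂ) ≠ 0 := by exact_mod_cast hM.ne'
    constructor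
    · have := e.1
      simpa [m0, Fin.sum_univ_three, hM'] using this
    · have := e.2
      simpa [m0, Fin.sum_univ_three, hM'] using this
  obtain ⟨σ₁, hσ₁⟩ := kepler_lin (M := M) (ν := ν₁) (q := q₁) hq1 h1 hT (by rw [hc1]; exact hc)
    (h := fun t => (ξ t).1 1) (k := fun t => (ξ t).2 1) (fun t => hd1 t 1) (fun t => by
      have := hd2 t 1 (by decide)
      rw [(hs t).1, sub_zero] at this
      simpa [circ] using this)
    (fun t => by
      rw [hc1]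
      exact congrArg (fun z : Ph 3 => z.1 1) (hp t))
    (fun t => by
      rw [hc1]
      exact congrArg (fun z : Ph 3 => z.2 1) (hp t))
  obtain ⟨σ₂, hσ₂⟩ := kepler_lin (M := M) (ν := ν₂) (q := q₂) hq2 h2 hT (by rw [hc2]; exact hc)
    (h := fun t => (ξ t).1 2) (k := fun t => (ξ t).2 2) (fun t => hd1 t 2) (fun t => by
      have := hd2 t 2 (by decide)
      rw [(hs t).1, sub_zero] at this
      simpa [circ] using this)
    (fun t => by
      rw [hc2]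
      exact congrArg (fun z : Ph 3 => z.1 2) (hp t))
    (fun t => by
      rw [hc2]
      exact congrArg (fun z : Ph 3 => z.2 2) (hp t))
  have hν' : ν₁ - ν₂ ≠ 0 := sub_ne_zero.mpr hν
  set α : ℝ := (σ₁ - σ₂) / (ν₁ - ν₂) with hα
  set β : ℝ := σ₁ - α * ν₁ with hβ
  have r1 : σ₁ = α * ν₁ + β := by rw [hβ]; ring
  have r2 : σ₂ = α * ν₂ + β := by
    have : α * (ν₁ - ν₂) = σ₁ - σ₂ := by rw [hα]; field_simp
    rw [hβ]; linarith
  have hv : ∀ t, vf (m0 M) (circ ν₁ ν₂ q₁ q₂ t) =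
      (![0, ν₁ * Complex.I * (Complex.exp (ν₁ * t * Complex.I) * q₁),
        ν₂ * Complex.I * (Complex.exp (ν₂ * t * Complex.I) * q₂)],
       ![0, ν₁ * Complex.I * (ν₁ * Complex.I * (Complex.exp (ν₁ * t * Complex.I) * q₁)),
        ν₂ * Complex.I * (ν₂ * Complex.I * (Complex.exp (ν₂ * t * Complex.I) * q₂))]) := by
    intro t
    have e1 := hx.hasDerivAt t
    have hd : ∀ (ν t : ℝ) (q : ℂ), HasDerivAt (fun t : ℝ => Complex.exp (ν * t * Complex.I) * q)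
        (ν * Complex.I * (Complex.exp (ν * t * Complex.I) * q)) t := by
      intro ν t q
      have h1 : HasDerivAt (fun t : ℝ => (ν : ℂ) * t * Complex.I) (ν * Complex.I) t := by
        have := ((Complex.ofRealCLM.hasDerivAt (x := t)).const_mul (ν : ℂ)).mul_const Complex.I
        simpa using this
      have h2 := h1.cexp.mul_const q
      refine h2.congr_deriv ?_
      ring
    refine Prod.ext ?_ ?_
    · rfl
    · funext j
      have e2 := snd_deriv e1 j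
      fin_cases j
      · exact acc0 M _
      · have e3 := (hd ν₁ t q₁).const_mul (ν₁ * Complex.I)
        exact e2.unique e3
      · have e3 := (hd ν₂ t q₂).const_mul (ν₂ * Complex.I)
        exact e2.unique e3
  refine ⟨α, β, fun t => ?_⟩
  rw [hv]
  refine Prod.ext (funext fun j => ?_) (funext fun j => ?_)
  · fin_cases j
    · simp [circ, (hs t).1]
    · have e := (hσ₁ t).1
      simp only [Fin.mk_one, circ, Prod.fst_add, Prod.smul_fst, Pi.add_apply, Pi.smul_apply,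
        Matrix.cons_val_one, Matrix.cons_val_zero, Complex.real_smul, smul_eq_mul]
      rw [e, r1]
      push_cast
      ring
    · have e := (hσ₂ t).1
      simp only [Fin.reduceFinMk, circ, Prod.fst_add, Prod.smul_fst, Pi.add_apply, Pi.smul_apply,
        Matrix.cons_val, Complex.real_smul, smul_eq_mul]
      rw [e, r2]
      push_cast
      ring
  · fin_cases j
    · simp [circ, (hs t).2]
    · have e := (hσ₁ t).2
      simp only [Fin.mk_one, circ, Prod.snd_add, Prod.smul_snd, Pi.add_apply, Pi.smul_apply,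
        Matrix.cons_val_one, Matrix.cons_val_zero, Complex.real_smul, smul_eq_mul]
      rw [e, r1]
      push_cast
      ring
    · have e := (hσ₂ t).2
      simp only [Fin.reduceFinMk, circ, Prod.snd_add, Prod.smul_snd, Pi.add_apply, Pi.smul_apply,
        Matrix.cons_val, Complex.real_smul, smul_eq_mul]
      rw [e, r2]
      push_cast
      ring

/-- **Planetary orbits are not Lyapunov stable.** -/
theorem planets {M : ℝ} (hM : 0 < M) {ν₁ ν₂ : ℝ} {q₁ q₂ : ℂ} (h1 : ν₁ ^ 2 * ‖q₁‖ ^ 3 = M)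
    (h2 : ν₂ ^ 2 * ‖q₂‖ ^ 3 = M) (hq : ‖q₁‖ ≠ ‖q₂‖) (hν : ν₁ ≠ ν₂)
    {T : ℝ} (hT : 0 < T)
    (hc12 : Complex.exp (ν₁ * T * Complex.I) = Complex.exp (ν₂ * T * Complex.I))
    (hc : Complex.exp (ν₁ * T * Complex.I) ≠ 1) :
    ∃ ε : ℝ, 0 < ε ∧ ∀ m : Fin 3 → ℝ, (∀ a, 0 < m a) → ‖m - m0 M‖ < ε →
      ∀ x : ℝ → Ph 3, IsSol m Set.univ x → ‖x 0 - circ ν₁ ν₂ q₁ q₂ 0‖ < ε →
        ∀ (T' : ℝ) (c : ℂ), |T' - T| < ε → ‖c‖ = 1 → (∀ t, x (t + T') = c • x t) →
          ¬ LyapunovStable m (Set.range x) := by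
  have hq1 : q₁ ≠ 0 := by
    rintro rfl
    simp at h1
    linarith
  have hq2 : q₂ ≠ 0 := by
    rintro rfl
    simp at h2
    linarith
  have hper : ∀ t, circ ν₁ ν₂ q₁ q₂ (t + T) =
      Complex.exp (ν₁ * T * Complex.I) • circ ν₁ ν₂ q₁ q₂ t := by
    intro t
    have e1 : ∀ ν : ℝ, Complex.exp (ν * (t + T : ℝ) * Complex.I) =
        Complex.exp (ν * T * Complex.I) * Complex.exp (ν * t * Complex.I) := by
      intro ν
      rw [← Complex.exp_add]
      congr 1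
      push_cast
      ring
    unfold circ
    refine Prod.ext (funext fun j => ?_) (funext fun j => ?_)
    · fin_cases j
      · simp
      · simp only [Fin.mk_one, Matrix.cons_val_one, Matrix.cons_val_zero, Prod.smul_fst,
          Pi.smul_apply, smul_eq_mul]
        rw [e1]
        ring
      · simp only [Fin.reduceFinMk, Matrix.cons_val, Prod.smul_fst, Pi.smul_apply, smul_eq_mul]
        rw [e1, hc12]
        ring
    · fin_cases j
      · simp
      · simp only [Fin.mk_one, Matrix.cons_val_one, Matrix.cons_val_zero, Prod.smul_snd,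
          Pi.smul_apply, smul_eq_mul]
        rw [e1]
        ring
      · simp only [Fin.reduceFinMk, Matrix.cons_val, Prod.smul_snd, Pi.smul_apply, smul_eq_mul]
        rw [e1, hc12]
        ring
  have hnorm : ‖Complex.exp (ν₁ * T * Complex.I)‖ = 1 := by
    rw [show (ν₁ : ℂ) * T * Complex.I = ((ν₁ * T : ℝ) : ℂ) * Complex.I by push_cast; ring]
    exact norm_expI _
  exact near_limit (by norm_num) (isSol_circ h1 h2 hq1 hq2 hq) (not_relEq_circ hq1 hq2 hν) hT hnorm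
    hper (nondeg_circ hM h1 h2 hq1 hq2 hq hν hT rfl hc12.symm hc)

end Pool.Agent.D0H95.PL
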