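import Pool.Agent.D0H95.PL.Cut
import Pool.Agent.D0H95.NB.Wro

/-!
The variational equation, jointly continuous in the masses.
-/

set_option autoImplicit false

namespace Pool.Agent.D0H95.PL

open Pool.Agent.W821.TB Pool.Agent.D0H95.NB Finset Filter Topology
open Pool.Agent.GR.Flow (IsFlowOf exists_solution contDiff_flow hasDerivAt_fderiv_flow)

variable {n : ℕ}

/-- Linear equations with continuous coefficients have unique solutions. -/
theorem lin_unique {E : Type} [NormedAddCommGroup E] [NormedSpace ℝ E] {A : ℝ → E →L[ℝ] E}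
    (hA : Continuous A) {ξ η : ℝ → E} (hξ : ∀ t, HasDerivAt ξ (A t (ξ t)) t)
    (hη : ∀ t, HasDerivAt η (A t (η t)) t) (h : ξ 0 = η 0) {T : ℝ} (hT : 0 ≤ T) : ξ T = η T := by
  obtain ⟨M, hM⟩ := (isCompact_Icc (a := (0:ℝ)) (b := T)).exists_bound_of_continuousOn
    hA.continuousOn
  have hL : ∀ t ∈ Set.Ico 0 T, LipschitzOnWith (Real.toNNReal M) (fun y => A t y) Set.univ := by
    intro t ht
    refine LipschitzWith.lipschitzOnWith ?_
    refine (A t).lipschitz.weaken ?_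
    have h1 := hM t ⟨ht.1, ht.2.le⟩
    rw [← NNReal.coe_le_coe]
    exact h1.trans (Real.le_coe_toNNReal M)
  have h1 := ODE_solution_unique_of_mem_Icc_right (v := fun t y => A t y) (s := fun _ => Set.univ)
    (K := Real.toNNReal M) (a := 0) (b := T) hL
    (fun t _ => (hξ t).continuousAt.continuousWithinAt) (fun t _ => (hξ t).hasDerivWithinAt)
    (fun _ _ => trivial) (fun t _ => (hη t).continuousAt.continuousWithinAt)
    (fun t _ => (hη t).hasDerivWithinAt) (fun _ _ => trivial) h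
  exact h1 ⟨hT, le_rfl⟩

namespace Fl

variable (P : Fl n)

theorem cd_t (t : ℝ) : ContDiff ℝ 1 (P.g t) := by
  have h : ContDiff ℝ 1 (fun w : Wm n => (t, w)) := contDiff_const.prodMk contDiff_id
  exact P.cd.comp h

theorem diff (t : ℝ) (w : Wm n) : HasFDerivAt (P.g t) (fderiv ℝ (P.g t) w) w :=
  ((P.cd_t t).differentiable one_ne_zero w).hasFDerivAt

theorem D_joint (t : ℝ) (w v : Wm n) : fderiv ℝ (P.g t) w v =
    fderiv ℝ (fun p : ℝ × Wm n => P.g p.1 p.2) (t, w) (0, v) := by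
  have h1 : HasFDerivAt (fun p : ℝ × Wm n => P.g p.1 p.2)
      (fderiv ℝ (fun p : ℝ × Wm n => P.g p.1 p.2) (t, w)) (t, w) :=
    (P.cd.differentiable one_ne_zero (t, w)).hasFDerivAt
  have h2 : HasFDerivAt (fun w : Wm n => (t, w)) (ContinuousLinearMap.inr ℝ ℝ (Wm n)) w :=
    hasFDerivAt_prodMk_right t w
  have h3 : HasFDerivAt (fun w : Wm n => P.g t w)
      ((fderiv ℝ (fun p : ℝ × Wm n => P.g p.1 p.2) (t, w)).comp
        (ContinuousLinearMap.inr ℝ ℝ (Wm n))) w := h1.comp w h2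
  have h4 := (P.diff t w).unique h3
  rw [h4]
  rfl

/-- Joint continuity of the derivative of the flow. -/
theorem D_cont : Continuous (fun p : (ℝ × Wm n) × Wm n => fderiv ℝ (P.g p.1.1) p.1.2 p.2) := by
  have h1 : Continuous (fderiv ℝ (fun p : ℝ × Wm n => P.g p.1 p.2)) :=
    P.cd.continuous_fderiv one_ne_zero
  have h2 : (fun p : (ℝ × Wm n) × Wm n => fderiv ℝ (P.g p.1.1) p.1.2 p.2) =
      fun p => fderiv ℝ (fun p : ℝ × Wm n => P.g p.1 p.2) (p.1.1, p.1.2) (0, p.2) :=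
    funext fun p => P.D_joint p.1.1 p.1.2 p.2
  rw [h2]
  exact (h1.comp continuous_fst).clm_apply (continuous_const.prodMk continuous_snd)

theorem D_add (t s : ℝ) (w v : Wm n) :
    fderiv ℝ (P.g (t + s)) w v = fderiv ℝ (P.g t) (P.g s w) (fderiv ℝ (P.g s) w v) := by
  have h1 : P.g (t + s) = P.g t ∘ P.g s := funext fun w => P.add t s w
  have h2 := (P.diff t (P.g s w)).comp w (P.diff s w)
  rw [← h1] at h2
  rw [h2.fderiv]
  rfl

theorem D_rot {c : ℂ} (hc : ‖c‖ = 1) (t : ℝ) (w v : Wm n) :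
    fderiv ℝ (P.g t) (rot c w) (rot c v) = rot c (fderiv ℝ (P.g t) w v) := by
  have h1 : HasFDerivAt (fun w : Wm n => P.g t (rotW c w))
      ((fderiv ℝ (P.g t) (rotW c w)).comp (rotW c)) w :=
    (P.diff t (rotW c w)).comp w (rotW c).hasFDerivAt
  have h2 : HasFDerivAt (fun w : Wm n => rotW c (P.g t w)) ((rotW c).comp (fderiv ℝ (P.g t) w)) w :=
    (rotW c).hasFDerivAt.comp w (P.diff t w)
  have h3 : (fun w : Wm n => P.g t (rotW c w)) = fun w => rotW c (P.g t w) :=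
    funext fun w => P.smul hc t w
  rw [h3] at h1
  exact congrArg (fun L : Wm n →L[ℝ] Wm n => L v) (h1.unique h2)

theorem D_zero (w v : Wm n) : fderiv ℝ (P.g 0) w v = v := by
  have h : P.g 0 = id := funext fun w => P.hg.zero w
  rw [h, fderiv_id]
  rfl

theorem D_snd (t : ℝ) (w v : Wm n) : (fderiv ℝ (P.g t) w v).2 = v.2 := by
  have h1 : HasFDerivAt (fun w : Wm n => (P.g t w).2)
      ((ContinuousLinearMap.snd ℝ (Ph n) (Fin n → ℝ)).comp (fderiv ℝ (P.g t) w)) w :=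
    (ContinuousLinearMap.snd ℝ (Ph n) (Fin n → ℝ)).hasFDerivAt.comp w (P.diff t w)
  have h2 : (fun w : Wm n => (P.g t w).2) = fun w => w.2 := funext fun w => P.snd_eq t w
  rw [h2] at h1
  have h3 := h1.unique (ContinuousLinearMap.snd ℝ (Ph n) (Fin n → ℝ)).hasFDerivAt
  exact congrArg (fun L : Wm n →L[ℝ] (Fin n → ℝ) => L v) h3

theorem fderiv_YY {w : Wm n} (hw : w ∈ P.S) (v : Ph n) :
    (fderiv ℝ (YY P.R P.δ P.ρ) w (v, 0)).1 = fderiv ℝ (vf w.2) w.1 v := by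
  have hne : ∀ a b, a ≠ b → w.1.1 a ≠ w.1.1 b := Rg_ne P.hδ hw.1
  have h1 : (YY P.R P.δ P.ρ : Wm n → Wm n) =ᶠ[𝓝 w] V := by
    filter_upwards [(isOpen_Reg P.R P.δ P.ρ).mem_nhds hw] with u hu
    exact YY_one P.hR P.hδ P.hρ hu
  rw [h1.fderiv_eq]
  have h2 : HasFDerivAt (V : Wm n → Wm n) (fderiv ℝ V w) w :=
    ((contDiffAt_V hne).differentiableAt one_ne_zero).hasFDerivAt
  have h3 : HasFDerivAt (fun z : Ph n => ((z, w.2) : Wm n))
      (ContinuousLinearMap.inl ℝ (Ph n) (Fin n → ℝ)) w.1 := hasFDerivAt_prodMk_left w.1 w.2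
  have h4 : HasFDerivAt (fun z : Ph n => V ((z, w.2) : Wm n))
      ((fderiv ℝ V w).comp (ContinuousLinearMap.inl ℝ (Ph n) (Fin n → ℝ))) w.1 :=
    HasFDerivAt.comp w.1 (g := V) h2 h3
  have h5 : HasFDerivAt (fun z : Ph n => (V ((z, w.2) : Wm n)).1)
      ((ContinuousLinearMap.fst ℝ (Ph n) (Fin n → ℝ)).comp
        ((fderiv ℝ V w).comp (ContinuousLinearMap.inl ℝ (Ph n) (Fin n → ℝ)))) w.1 :=
    (ContinuousLinearMap.fst ℝ (Ph n) (Fin n → ℝ)).hasFDerivAt.comp w.1 h4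
  have h6 : HasFDerivAt (vf w.2) (fderiv ℝ (vf w.2) w.1) w.1 :=
    ((contDiffAt_vf hne).differentiableAt one_ne_zero).hasFDerivAt
  exact congrArg (fun L : Ph n →L[ℝ] Ph n => L v) (h5.unique h6)

/-- The derivative of the flow solves the variational equation. -/
theorem jac {m : Fin n → ℝ} {x : ℝ → Ph n} (hx : IsSol m Set.univ x)
    (hS : ∀ t, (x t, m) ∈ P.S) (v : Ph n) :
    JF m x (fun t => (fderiv ℝ (P.g t) (x 0, m) (v, 0)).1) := by
  intro t
  have hg := P.of_sol hx hS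
  have h0 : ContDiff ℝ 1 (P.X : Wm n → Wm n) := by
    rw [show (P.X : Wm n → Wm n) = YY P.R P.δ P.ρ from rfl]
    exact contDiff_YY P.hδ
  have h1 := hasDerivAt_fderiv_flow (X := P.X) h0 P.hK P.hg (P.g t (x 0, m))
    (fderiv ℝ (P.g t) (x 0, m) (v, 0))
  rw [show (P.X : Wm n → Wm n) = YY P.R P.δ P.ρ from rfl] at h1
  have h2 : HasDerivAt (fun s => fderiv ℝ (P.g s) (x 0, m) (v, 0))
      (fderiv ℝ (YY P.R P.δ P.ρ) (P.g t (x 0, m)) (fderiv ℝ (P.g t) (x 0, m) (v, 0))) t := by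
    have h3 : (fun s => fderiv ℝ (P.g s) (x 0, m) (v, 0)) =
        fun s => fderiv ℝ (P.g (s - t)) (P.g t (x 0, m)) (fderiv ℝ (P.g t) (x 0, m) (v, 0)) := by
      funext s
      rw [← P.D_add (s - t) t, sub_add_cancel]
    rw [h3]
    have h5 : HasDerivAt (fun t_1 => fderiv ℝ (P.g t_1) (P.g t (x 0, m))
        (fderiv ℝ (P.g t) (x 0, m) (v, 0)))
        (fderiv ℝ (YY P.R P.δ P.ρ) (P.g t (x 0, m)) (fderiv ℝ (P.g t) (x 0, m) (v, 0)))
        (t - t) := by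
      rw [sub_self]; exact h1
    exact h5.comp_sub_const t t
  have h6 : HasDerivAt (fun s => (fderiv ℝ (P.g s) (x 0, m) (v, 0)).1)
      (fderiv ℝ (YY P.R P.δ P.ρ) (P.g t (x 0, m)) (fderiv ℝ (P.g t) (x 0, m) (v, 0))).1 t :=
    (ContinuousLinearMap.fst ℝ (Ph n) (Fin n → ℝ)).hasFDerivAt.comp_hasDerivAt t h2
  have h7 : fderiv ℝ (P.g t) (x 0, m) (v, 0) = ((fderiv ℝ (P.g t) (x 0, m) (v, 0)).1, 0) :=
    Prod.ext rfl (P.D_snd t (x 0, m) (v, 0))
  have h8 : P.g t (x 0, m) ∈ P.S := by rw [hg]; exact hS t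
  have h9 := P.fderiv_YY h8 (fderiv ℝ (P.g t) (x 0, m) (v, 0)).1
  rw [← h7] at h9
  rw [h9, hg] at h6
  exact h6

theorem jac_eq {m : Fin n → ℝ} {x ξ : ℝ → Ph n} (hx : IsSol m Set.univ x)
    (hS : ∀ t, (x t, m) ∈ P.S) (hξ : JF m x ξ) {T : ℝ} (hT : 0 ≤ T) :
    (fderiv ℝ (P.g T) (x 0, m) (ξ 0, 0)).1 = ξ T := by
  have hA : Continuous (fun t => fderiv ℝ (vf m) (x t)) := by
    refine continuous_iff_continuousAt.mpr fun t => ?_
    have h1 := (contDiffAt_vf (m := m) (hx.mem t).1).continuousAt_fderiv one_ne_zero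
    exact ContinuousAt.comp (g := fderiv ℝ (vf m)) h1 hx.continuous.continuousAt
  refine lin_unique hA (P.jac hx hS (ξ 0)) hξ ?_ hT
  rw [P.D_zero]

end Fl

end Pool.Agent.D0H95.PL
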